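import Pool.Agent.Helper8.GP.Var

set_option autoImplicit false

namespace Pool.Agent.Helper8.GP

open Pool.Agent.Helper18.GP Relation Classical Filter Topology

theorem m_Up : stUp := by
  intro N V G P hM ι S y hy B hB
  have hmem : (∑ e ∈ S, dK V G P (y e.1) (y e.2)) ∈
      {c | ∃ E : List ((Fin N → ℝ) × (Fin N → ℝ)), (∀ e ∈ E, e.1 ∈ Pts V G ∧ e.2 ∈ Pts V G) ∧
        NConn E (dl '' (B : Set (Fin N))) ∧ c = nlen (dK V G P) E} := by
    refine ⟨S.toList.map (fun e => (y e.1, y e.2)), ?_, ?_, ?_⟩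
    · intro e he
      obtain ⟨q, _, rfl⟩ := List.mem_map.1 he
      exact ⟨hy _, hy _⟩
    · rintro _ ⟨a, ha, rfl⟩ _ ⟨b, hb, rfl⟩
      obtain ⟨i, j, hi, hj, hij⟩ := hB a (by exact_mod_cast ha) b (by exact_mod_cast hb)
      rw [← hi, ← hj]
      clear hi hj
      induction hij with
      | rel p q h =>
        refine EqvGen.rel _ _ (List.mem_map.2 ⟨(p, q), Finset.mem_toList.2 h, rfl⟩)
      | refl p => exact EqvGen.refl _
      | symm p q _ ih => exact EqvGen.symm _ _ ih
      | trans p q r _ _ ih1 ih2 => exact EqvGen.trans _ _ _ ih1 ih2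
    · unfold nlen
      rw [List.map_map]
      exact (Finset.sum_map_toList S (fun e => dK V G P (y e.1) (y e.2))).symm
  unfold Ln StL
  refine csInf_le ⟨0, ?_⟩ hmem
  rintro c ⟨E, hE, _, rfl⟩
  unfold nlen
  refine List.sum_nonneg fun z hz => ?_
  obtain ⟨e, he, rfl⟩ := List.mem_map.1 hz
  exact hM.nonneg _ (hE e he).1 _ (hE e he).2

end Pool.Agent.Helper8.GP
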