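import Pool.Agent.Helper8.GP.Var

/-!
# Chapter VAR, modules V10 and V11: plane vector analysis
-/

namespace Pool.Agent.Helper8.GP

open Pool.Agent.Helper18.GP Relation Classical Filter Topology

theorem v10_sq (z : ℂ) : ‖z‖ ^ 2 = z.re * z.re + z.im * z.im := by
  rw [Complex.sq_norm, Complex.normSq_apply]

theorem v10_bound {e g : ℂ} {l s : ℝ} (he : ‖e‖ = 1) (hl : 0 < l) :
    ‖(l : ℂ) * e - s * g‖ ≤ l - s * dt e g + s ^ 2 * ‖g‖ ^ 2 * (1 / (2 * l)) := by
  have h1 : ‖(l : ℂ) * e - s * g‖ ^ 2 = l ^ 2 - 2 * l * s * dt e g + s ^ 2 * ‖g‖ ^ 2 := by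
    have he2 := v10_sq e
    rw [he] at he2
    rw [v10_sq, v10_sq g]
    unfold dt
    simp
    have : l ^ 2 = l ^ 2 * (e.re * e.re + e.im * e.im) := by rw [← he2]; ring
    rw [this]
    ring
  have h2 : 0 ≤ (‖(l : ℂ) * e - s * g‖ - l) ^ 2 := sq_nonneg _
  have h3 : 2 * l * ‖(l : ℂ) * e - s * g‖ ≤ 2 * l ^ 2 - 2 * l * s * dt e g + s ^ 2 * ‖g‖ ^ 2 := by
    nlinarith
  have h4 : l - s * dt e g + s ^ 2 * ‖g‖ ^ 2 * (1 / (2 * l)) =
      (2 * l ^ 2 - 2 * l * s * dt e g + s ^ 2 * ‖g‖ ^ 2) / (2 * l) := by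
    field_simp
  rw [h4, le_div_iff₀ (by linarith)]
  linarith

theorem m_Ang : stAng := by
  intro e f l m he hf hl hm h
  have he2 := v10_sq e
  have hf2 := v10_sq f
  rw [he] at he2
  rw [hf] at hf2
  have hg2 : ‖e + f‖ ^ 2 = 2 + 2 * dt e f := by
    rw [v10_sq]
    unfold dt
    simp
    linarith
  have hde : dt e (e + f) = 1 + dt e f := by
    unfold dt
    simp
    linarith
  have hdf : dt f (e + f) = 1 + dt e f := by
    unfold dt
    simp
    linarith
  set n := ‖e + f‖ with hn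
  set K := n ^ 2 * (1 / (2 * l)) + n ^ 2 * (1 / (2 * m)) with hK
  have hev : ∀ᶠ s : ℝ in 𝓝[>] 0, 0 ≤ (n - n ^ 2) + s * K := by
    filter_upwards [h, self_mem_nhdsWithin] with s hs hs0
    have hs0 : 0 < s := hs0
    have b1 := v10_bound (g := e + f) (s := s) he hl
    have b2 := v10_bound (g := e + f) (s := s) hf hm
    rw [norm_mul, Complex.norm_real, Real.norm_eq_abs, abs_of_pos hs0] at hs
    rw [← hn] at hs b1 b2
    rw [hde] at b1
    rw [hdf] at b2
    have h1 : 0 ≤ s * ((n - n ^ 2) + s * K) := by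
      have : s * ((n - n ^ 2) + s * K) = s * n - 2 * s * (1 + dt e f) +
          (s ^ 2 * n ^ 2 * (1 / (2 * l)) + s ^ 2 * n ^ 2 * (1 / (2 * m))) := by
        rw [hK]
        rw [show n - n ^ 2 = n - (2 + 2 * dt e f) by rw [hg2]]
        ring
      rw [this]
      linarith
    exact nonneg_of_mul_nonneg_right h1 hs0
  have hlim : Tendsto (fun s : ℝ => (n - n ^ 2) + s * K) (𝓝[>] 0) (𝓝 (n - n ^ 2)) := by
    have : Tendsto (fun s : ℝ => (n - n ^ 2) + s * K) (𝓝 0) (𝓝 ((n - n ^ 2) + 0 * K)) :=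
      (continuous_const.add (continuous_id.mul continuous_const)).tendsto 0
    rw [zero_mul, add_zero] at this
    exact this.mono_left nhdsWithin_le_nhds
  have h0 : 0 ≤ n - n ^ 2 := ge_of_tendsto hlim hev
  have hn0 : 0 ≤ n := norm_nonneg _
  have hn1 : n ≤ 1 := by
    by_contra hc
    push Not at hc
    nlinarith
  have : n ^ 2 ≤ 1 := by nlinarith
  linarith

theorem m_Three : stThree := by
  intro e f g he hf hg h1 h2 h3
  have he2 := v10_sq e
  have hf2 := v10_sq f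
  have hg2 := v10_sq g
  rw [he] at he2
  rw [hf] at hf2
  rw [hg] at hg2
  have hs : ‖e + f + g‖ ^ 2 = 3 + 2 * (dt e f + dt e g + dt f g) := by
    rw [v10_sq]
    unfold dt
    simp
    linarith
  have hz : e + f + g = 0 := by
    rw [← norm_eq_zero]
    have : ‖e + f + g‖ ^ 2 ≤ 0 := by rw [hs]; linarith
    have h4 := sq_nonneg ‖e + f + g‖
    exact pow_eq_zero_iff (two_ne_zero) |>.1 (le_antisymm this h4)
  have hsum : 3 + 2 * (dt e f + dt e g + dt f g) = 0 := by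
    rw [← hs, hz]; simp
  exact ⟨hz, by linarith, by linarith, by linarith⟩

end Pool.Agent.Helper8.GP
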