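import Pool.Agent.Helper8.GP.Var

/-!
# Chapter VAR, module V12: local structure at the nodes outside the vertices
-/

namespace Pool.Agent.Helper8.GP

open Pool.Agent.Helper18.GP Relation Classical Filter Topology

theorem v12_sum3 {N : ℕ} {M : Type*} [AddCommMonoid M] {a b c : Fin N} (hab : a ≠ b) (hac : a ≠ c)
    (hbc : b ≠ c) (f : Fin N → M) (h : ∀ v, ¬ (v = a ∨ v = b ∨ v = c) → f v = 0) :
    ∑ v, f v = f a + (f b + f c) := by
  rw [← Finset.sum_subset (Finset.subset_univ ({a, b, c} : Finset (Fin N)))]
  · rw [Finset.sum_insert (by simp [hab, hac]), Finset.sum_insert (by simp [hbc]),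
      Finset.sum_singleton]
  · intro v _ hv
    apply h
    simpa using hv

theorem v12_un_norm {z : ℂ} (h : z ≠ 0) : ‖un z‖ = 1 := by
  unfold un
  rw [norm_div, Complex.norm_real, norm_norm, div_self (norm_ne_zero_iff.2 h)]

theorem v12_un_neg (z w : ℂ) : un (z - w) = - un (w - z) := by
  unfold un
  rw [norm_sub_rev w z, ← neg_sub w z, norm_neg, neg_div, norm_sub_rev w z]

theorem v12_un_mul {z : ℂ} (h : z ≠ 0) : z = (‖z‖ : ℂ) * un z := by
  unfold un
  rw [mul_div_cancel₀]
  exact_mod_cast norm_ne_zero_iff.2 h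

theorem v12_dt_self {z : ℂ} (h : ‖z‖ = 1) : dt z z = 1 := by
  have h1 := Complex.sq_norm z
  rw [h, Complex.normSq_apply] at h1
  unfold dt
  linarith

theorem v12_crs_smul (n z : ℂ) (r : ℝ) : crs n ((r : ℂ) * z) = r * crs n z := by
  unfold crs
  simp
  ring

theorem v12_lag {e f : ℂ} (he : ‖e‖ = 1) (hf : ‖f‖ = 1) : crs e f ^ 2 + dt e f ^ 2 = 1 := by
  have h1 := Complex.sq_norm e
  rw [he, Complex.normSq_apply] at h1
  have h2 := Complex.sq_norm f
  rw [hf, Complex.normSq_apply] at h2
  unfold crs dt
  have : (e.re * f.im - e.im * f.re) ^ 2 + (e.re * f.re + e.im * f.im) ^ 2 =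
      (e.re * e.re + e.im * e.im) * (f.re * f.re + f.im * f.im) := by ring
  rw [this, ← h1, ← h2]
  norm_num

theorem v12_par {n e f : ℂ} (hn : n ≠ 0) (he : crs n e = 0) (hf : crs n f = 0) : crs e f = 0 := by
  have h1 : n.re * crs e f = 0 := by
    have : n.re * crs e f = crs n f * e.re - crs n e * f.re := by unfold crs; ring
    rw [this, he, hf]; ring
  have h2 : n.im * crs e f = 0 := by
    have : n.im * crs e f = crs n f * e.im - crs n e * f.im := by unfold crs; ring
    rw [this, he, hf]; ring
  rcases mul_eq_zero.1 h1 with h3 | h3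
  · rcases mul_eq_zero.1 h2 with h4 | h4
    · exact absurd (Complex.ext h3 h4) hn
    · exact h4
  · exact h3

theorem m_Local (h7 : stDich) (h9 : stDir) (h19 : stPair) (h11 : stThree) (hS : stStraight) :
    stLocal := by
  intro N V G P hT hSt h3 M hpos A hAV k H x T O i hi
  have hD := h7 N V G hT h3 (x i) (T.pts i) hi
  -- neighbours
  have hne : ∀ j, H.Adj i j → x i ≠ x j := fun j hj e => H.ne_of_adj hj (T.inj e)
  have hdist : ∀ j, H.Adj i j → dK V G P (x i) (x j) = ‖dev P (x i) - dev P (x j)‖ := fun j hj =>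
    hS N V G P hT hSt (x i) (T.pts i) (x j) (T.pts j) (O.edge i j hj)
  have hp : ∀ j, H.Adj i j → dev P (x j) - dev P (x i) ≠ 0 := by
    intro j hj e
    apply hne j hj
    apply hpos _ (T.pts i) _ (T.pts j)
    rw [hdist j hj, norm_sub_rev, e, norm_zero]
  have hn1 : ∀ j, H.Adj i j → ‖un (dev P (x j) - dev P (x i))‖ = 1 := fun j hj =>
    v12_un_norm (hp j hj)
  have hpair : ∀ j l, H.Adj i j → H.Adj i l → j ≠ l →
      dt (un (dev P (x j) - dev P (x i))) (un (dev P (x l) - dev P (x i))) ≤ -1 / 2 :=
    h19 N V G P hT hSt M hpos A hAV k H x T O i hi hD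
  have hdeg : 3 ≤ dg H i := T.deg i (fun a ha => hi a (hAV ha))
  obtain ⟨j₁, j₂, j₃, m₁, m₂, m₃, h12, h13, h23⟩ := Finset.two_lt_card_iff.1
    (show 2 < (Finset.univ.filter fun j => H.Adj i j).card from hdeg)
  have a₁ : H.Adj i j₁ := (Finset.mem_filter.1 m₁).2
  have a₂ : H.Adj i j₂ := (Finset.mem_filter.1 m₂).2
  have a₃ : H.Adj i j₃ := (Finset.mem_filter.1 m₃).2
  have hthree := h11 _ _ _ (hn1 _ a₁) (hn1 _ a₂) (hn1 _ a₃) (hpair _ _ a₁ a₂ h12)
    (hpair _ _ a₁ a₃ h13) (hpair _ _ a₂ a₃ h23)
  refine ⟨?_, j₁, j₂, j₃, h12, h13, h23, ?_, ?_⟩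
  · rcases hD with hD | hD
    · exact hD
    · exfalso
      obtain ⟨a, ha, b, hb, c, hc, hacb, hab, hac, hcb, hsupp, hz⟩ := hD
      have nab : a ≠ b := G.ne_of_adj hab
      have nac : a ≠ c := G.ne_of_adj hac
      have nbc : b ≠ c := (G.ne_of_adj hcb).symm
      have hD' := hSt a ha c hc b hb hacb hac hcb hab
      have hn : P b - P a ≠ 0 := by
        intro e
        rw [e] at hD'
        unfold crs at hD'
        simp at hD'
      have hxv : ∀ v, ¬ (v = a ∨ v = b ∨ v = c) → x i v = 0 := by
        intro v hv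
        by_contra h0
        rcases (hsupp v).1 h0 with h | h
        · exact hv (Or.inl h)
        · exact hv (Or.inr (Or.inl h))
      have hxc : x i c = 0 := by
        by_contra h0
        rcases (hsupp c).1 h0 with h | h
        · exact nac h.symm
        · exact nbc h.symm
      have hxs : x i a + (x i b + x i c) = 1 := by
        rw [← v12_sum3 nab nac nbc _ hxv]
        exact (T.pts i).2.1
      have hxd : dev P (x i) = x i a * P a + (x i b * P b + x i c * P c) := by
        unfold dev
        refine v12_sum3 nab nac nbc _ ?_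
        intro v hv
        rw [hxv v hv]; simp
      have hneg : ∀ j, H.Adj i j → crs (P b - P a) (un (dev P (x j) - dev P (x i))) ≤ 0 := by
        intro j hj
        obtain ⟨z, hzP, hsh, r, hr, hzr⟩ := h9 N V G P M hpos (x i) (T.pts i) (x j) (T.pts j)
          (hdist j hj) (hne j hj)
        have hzv : ∀ v, ¬ (v = a ∨ v = b ∨ v = c) → z v = 0 := by
          intro v hv
          by_contra h0
          exact hv (hz z hzP hsh v h0)
        have hzs : z a + (z b + z c) = 1 := by
          rw [← v12_sum3 nab nac nbc _ hzv]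
          exact hzP.2.1
        have hzd : dev P z = z a * P a + (z b * P b + z c * P c) := by
          unfold dev
          refine v12_sum3 nab nac nbc _ ?_
          intro v hv
          rw [hzv v hv]; simp
        have e1 : crs (P b - P a) (dev P z - dev P (x i)) =
            - (z c * crs (P c - P a) (P b - P a)) := by
          rw [hzd, hxd, hxc]
          unfold crs
          simp
          have hxa : x i a = 1 - x i b := by rw [hxc] at hxs; linarith
          have hza : z a = 1 - z b - z c := by linarith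
          rw [hxa, hza]
          ring
        rw [hzr, v12_crs_smul] at e1
        rw [v12_un_mul (hp j hj), v12_crs_smul] at e1
        have h1 : 0 ≤ z c * crs (P c - P a) (P b - P a) := mul_nonneg (hzP.1 c) hD'.le
        have h2 : 0 < r * ‖dev P (x j) - dev P (x i)‖ :=
          mul_pos hr (norm_pos_iff.2 (hp j hj))
        by_contra h3
        push Not at h3
        have h4 := mul_pos h2 h3
        nlinarith
      have hsum : crs (P b - P a) (un (dev P (x j₁) - dev P (x i))) +
          crs (P b - P a) (un (dev P (x j₂) - dev P (x i))) +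
          crs (P b - P a) (un (dev P (x j₃) - dev P (x i))) = 0 := by
        have := congrArg (crs (P b - P a)) hthree.1
        have e0 : crs (P b - P a) 0 = 0 := by unfold crs; simp
        rw [e0] at this
        rw [← this]
        unfold crs
        simp
        ring
      have z1 : crs (P b - P a) (un (dev P (x j₁) - dev P (x i))) = 0 := by
        linarith [hneg _ a₁, hneg _ a₂, hneg _ a₃]
      have z2 : crs (P b - P a) (un (dev P (x j₂) - dev P (x i))) = 0 := by
        linarith [hneg _ a₁, hneg _ a₂, hneg _ a₃]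
      have h5 := v12_par hn z1 z2
      have h6 := v12_lag (hn1 _ a₁) (hn1 _ a₂)
      rw [h5, hthree.2.1] at h6
      norm_num at h6
  · intro l
    constructor
    · intro hl
      by_contra hcon
      push Not at hcon
      obtain ⟨n1, n2, n3⟩ := hcon
      have ht := h11 _ _ _ (hn1 _ a₁) (hn1 _ a₂) (hn1 _ hl) (hpair _ _ a₁ a₂ h12)
        (hpair _ _ a₁ hl (Ne.symm n1)) (hpair _ _ a₂ hl (Ne.symm n2))
      have e : un (dev P (x l) - dev P (x i)) = un (dev P (x j₃) - dev P (x i)) := by
        have := ht.1.trans hthree.1.symm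
        exact add_left_cancel this
      have h7 := hpair _ _ hl a₃ n3
      rw [e, v12_dt_self (hn1 _ a₃)] at h7
      norm_num at h7
    · rintro (rfl | rfl | rfl)
      · exact a₁
      · exact a₂
      · exact a₃
  · show un (dev P (x i) - dev P (x j₁)) + un (dev P (x i) - dev P (x j₂)) +
      un (dev P (x i) - dev P (x j₃)) = 0
    rw [v12_un_neg (dev P (x i)) (dev P (x j₁)), v12_un_neg (dev P (x i)) (dev P (x j₂)),
      v12_un_neg (dev P (x i)) (dev P (x j₃))]
    have := congrArg (fun z => -z) hthree.1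
    simp only [neg_zero] at this
    rw [← this]
    ring

end Pool.Agent.Helper8.GP
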