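import Pool.Agent.Helper8.GP.Var

/-!
# Gilbert-Pollak, chapter VAR, module V13 (helper40): velocities
-/

set_option autoImplicit false

namespace Pool.Agent.Helper8.GP

open Pool.Agent.Helper18.GP Relation Classical Filter Topology

private theorem crs_l_add (z w u : ℂ) : crs (z + w) u = crs z u + crs w u := by
  unfold crs; simp only [Complex.add_re, Complex.add_im]; ring

private theorem crs_l_sub (z w u : ℂ) : crs (z - w) u = crs z u - crs w u := by
  unfold crs; simp only [Complex.sub_re, Complex.sub_im]; ring

private theorem crs_r_add (z w u : ℂ) : crs z (w + u) = crs z w + crs z u := by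
  unfold crs; simp only [Complex.add_re, Complex.add_im]; ring

private theorem crs_r_sub_rev (z w u : ℂ) : crs z (w - u) = -crs z (u - w) := by
  unfold crs; simp only [Complex.sub_re, Complex.sub_im]; ring

private theorem crs_r_zero (z : ℂ) : crs z 0 = 0 := by unfold crs; simp

private theorem crs_l_zero (z : ℂ) : crs 0 z = 0 := by unfold crs; simp

private theorem crs_r_mul (r : ℝ) (z w : ℂ) : crs z ((r : ℂ) * w) = r * crs z w := by
  unfold crs
  simp only [Complex.mul_re, Complex.mul_im, Complex.ofReal_re, Complex.ofReal_im]; ring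

private theorem crs_l_mul (r : ℝ) (z w : ℂ) : crs ((r : ℂ) * z) w = r * crs z w := by
  unfold crs
  simp only [Complex.mul_re, Complex.mul_im, Complex.ofReal_re, Complex.ofReal_im]; ring

private theorem crs_r_sum {ι : Type*} (s : Finset ι) (z : ℂ) (f : ι → ℂ) :
    crs z (∑ i ∈ s, f i) = ∑ i ∈ s, crs z (f i) := by
  induction s using Finset.induction_on with
  | empty => rw [Finset.sum_empty, Finset.sum_empty, crs_r_zero]
  | insert a s ha ih => rw [Finset.sum_insert ha, Finset.sum_insert ha, crs_r_add, ih]

private theorem eq_zero_of_crs {v : ℂ} (h : ∀ c, crs c v = 0) : v = 0 := by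
  have h1 := h 1
  have h2 := h Complex.I
  unfold crs at h1 h2
  simp only [Complex.one_re, Complex.one_im, Complex.I_re, Complex.I_im] at h1 h2
  apply Complex.ext
  · rw [Complex.zero_re]; linarith
  · rw [Complex.zero_im]; linarith

/-- three unit vectors with sum zero -/
private theorem three_V13 {e f g : ℂ} (he : ‖e‖ = 1) (hf : ‖f‖ = 1) (hg : ‖g‖ = 1)
    (h : e + f + g = 0) {α β γ : ℝ} (h2 : (α : ℂ) * e + (β : ℂ) * f + (γ : ℂ) * g = 0) :
    α = β ∧ β = γ := by
  have e1 : e.re ^ 2 + e.im ^ 2 = 1 := by
    have := Complex.sq_norm e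
    rw [he, Complex.normSq_apply] at this
    linarith
  have f1 : f.re ^ 2 + f.im ^ 2 = 1 := by
    have := Complex.sq_norm f
    rw [hf, Complex.normSq_apply] at this
    linarith
  have g1 : g.re ^ 2 + g.im ^ 2 = 1 := by
    have := Complex.sq_norm g
    rw [hg, Complex.normSq_apply] at this
    linarith
  have hre : e.re + f.re + g.re = 0 := by
    have := congrArg Complex.re h
    simpa using this
  have him : e.im + f.im + g.im = 0 := by
    have := congrArg Complex.im h
    simpa using this
  have h2re : α * e.re + β * f.re + γ * g.re = 0 := by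
    have := congrArg Complex.re h2
    simpa using this
  have h2im : α * e.im + β * f.im + γ * g.im = 0 := by
    have := congrArg Complex.im h2
    simpa using this
  have gr : g.re = -(e.re + f.re) := by linarith
  have gi : g.im = -(e.im + f.im) := by linarith
  have hd : e.re * f.re + e.im * f.im = -1 / 2 := by
    rw [gr, gi] at g1
    nlinarith
  have hc : (e.re * f.im - e.im * f.re) ^ 2 = 3 / 4 := by
    have : (e.re * f.im - e.im * f.re) ^ 2 =
        (e.re ^ 2 + e.im ^ 2) * (f.re ^ 2 + f.im ^ 2) - (e.re * f.re + e.im * f.im) ^ 2 := by ring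
    rw [this, e1, f1, hd]; norm_num
  have hc0 : e.re * f.im - e.im * f.re ≠ 0 := by
    intro h0
    rw [h0] at hc
    norm_num at hc
  have hA : (β - γ) * (e.re * f.im - e.im * f.re) = 0 := by
    linear_combination e.re * h2im - e.im * h2re - γ * (e.re * him - e.im * hre)
  have hB : (α - γ) * (e.re * f.im - e.im * f.re) = 0 := by
    linear_combination f.im * h2re - f.re * h2im - γ * (f.im * hre - f.re * him)
  have hA' : β - γ = 0 := (mul_eq_zero.1 hA).resolve_right hc0
  have hB' : α - γ = 0 := (mul_eq_zero.1 hB).resolve_right hc0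
  constructor <;> linarith

private theorem norm_un {z : ℂ} (h : z ≠ 0) : ‖un z‖ = 1 := by
  unfold un
  rw [norm_div, Complex.norm_real, norm_norm, div_self (norm_ne_zero_iff.2 h)]

private theorem mul_un (z : ℂ) : (‖z‖ : ℂ) * un z = z := by
  unfold un
  by_cases h : z = 0
  · rw [h]; simp
  · rw [mul_div_cancel₀]
    exact_mod_cast norm_ne_zero_iff.2 h

/-- local constancy gives constancy on the edges of a preconnected graph -/
private theorem const_V13 {k : ℕ} {H : SimpleGraph (Fin k)} {g : Fin k → Fin k → ℝ}
    (hs : ∀ i j, g i j = g j i) (hl : ∀ i j l, H.Adj i j → H.Adj i l → g i j = g i l)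
    {a c : Fin k} (w : H.Walk a c) : ∀ b d, H.Adj a b → H.Adj c d → g a b = g c d := by
  induction w with
  | nil => intro b d h1 h2; exact hl _ _ _ h1 h2
  | cons h w ih =>
    intro b d h1 h2
    rw [hl _ _ _ h1 h, hs]
    exact ih _ _ h.symm h2

/-- summation by parts -/
private theorem parts_V13 {k : ℕ} (H : SimpleGraph (Fin k)) (p : Fin k → ℂ)
    (σ : Fin k → Fin k → ℝ) (δ : Fin k → ℂ) :
    (∑ i, ∑ j, if H.Adj i j then σ i j * crs (δ i - δ j) (p i - p j) else 0) =
    ∑ i, crs (δ i) (∑ j, if H.Adj i j then ((σ i j + σ j i : ℝ) : ℂ) * (p i - p j) else 0) := by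
  have h1 : (∑ i, ∑ j, if H.Adj i j then σ i j * crs (δ i - δ j) (p i - p j) else 0) =
      (∑ i, ∑ j, if H.Adj i j then σ i j * crs (δ i) (p i - p j) else 0) +
      ∑ i, ∑ j, if H.Adj i j then σ i j * crs (δ j) (p j - p i) else 0 := by
    rw [← Finset.sum_add_distrib]
    refine Finset.sum_congr rfl fun i _ => ?_
    rw [← Finset.sum_add_distrib]
    refine Finset.sum_congr rfl fun j _ => ?_
    split_ifs with h
    · rw [crs_l_sub, crs_r_sub_rev (δ j) (p j) (p i)]; ring
    · ring
  rw [h1, Finset.sum_comm (f := fun i j => if H.Adj i j then σ i j * crs (δ j) (p j - p i) else 0),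
    ← Finset.sum_add_distrib]
  refine Finset.sum_congr rfl fun i _ => ?_
  rw [crs_r_sum, ← Finset.sum_add_distrib]
  refine Finset.sum_congr rfl fun j _ => ?_
  by_cases h : H.Adj i j
  · rw [if_pos h, if_pos h.symm, if_pos h, crs_r_mul]; ring
  · rw [if_neg h, if_neg (fun h' => h h'.symm), if_neg h, crs_r_zero]; ring

/-- **V13**: velocities -/
theorem m_Vel : stVel := by
  intro k H p Q hH hp hQ hT W hW
  -- the linear map
  let m : (Fin k → ℂ) → Fin k → ℂ := fun η i => if Q i then 0 else η i
  let T : (Fin k → ℂ) →ₗ[ℝ] (Fin k × Fin k → ℝ) :=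
    { toFun := fun η e => if H.Adj e.1 e.2 then crs (m η e.1 - m η e.2) (p e.1 - p e.2) else 0
      map_add' := by
        intro η θ
        funext e
        have hm : ∀ i, m (η + θ) i = m η i + m θ i := by
          intro i
          by_cases h : Q i
          · simp only [m, if_pos h, add_zero]
          · simp only [m, if_neg h, Pi.add_apply]
        by_cases h : H.Adj e.1 e.2
        · simp only [Pi.add_apply, if_pos h]
          rw [hm, hm, ← crs_l_add]
          congr 1; ring
        · simp only [Pi.add_apply, if_neg h, add_zero]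
      map_smul' := by
        intro r η
        funext e
        have hm : ∀ i, m (r • η) i = (r : ℂ) * m η i := by
          intro i
          by_cases h : Q i
          · simp only [m, if_pos h, mul_zero]
          · simp only [m, if_neg h, Pi.smul_apply, Complex.real_smul]
        by_cases h : H.Adj e.1 e.2
        · simp only [Pi.smul_apply, if_pos h, RingHom.id_apply, smul_eq_mul]
          rw [hm, hm, ← mul_sub, crs_l_mul]
        · simp only [Pi.smul_apply, if_neg h, RingHom.id_apply, smul_eq_mul, mul_zero] }
  let W0 : Fin k → ℂ := fun i => if Q i then W i else 0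
  let b : Fin k × Fin k → ℝ :=
    fun e => if H.Adj e.1 e.2 then crs (W0 e.1 - W0 e.2) (p e.1 - p e.2) else 0
  by_cases hb : b ∈ LinearMap.range T
  · obtain ⟨η, hη⟩ := hb
    refine ⟨fun i => W0 i - m η i, ?_, ?_⟩
    · intro i hi
      simp only [W0, m, if_pos hi, sub_zero]
    · intro i j hij
      have h := congrFun hη (i, j)
      have h' : crs (m η i - m η j) (p i - p j) = crs (W0 i - W0 j) (p i - p j) := by
        have e1 : T η (i, j) = if H.Adj i j then crs (m η i - m η j) (p i - p j) else 0 := rfl
        have e2 : b (i, j) = if H.Adj i j then crs (W0 i - W0 j) (p i - p j) else 0 := rfl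
        rw [e1, e2, if_pos hij, if_pos hij] at h
        exact h
      show crs (W0 i - m η i - (W0 j - m η j)) (p i - p j) = 0
      have e3 : W0 i - m η i - (W0 j - m η j) = (W0 i - W0 j) - (m η i - m η j) := by ring
      rw [e3, crs_l_sub, h']; ring
  · exfalso
    obtain ⟨φ, hφb, hφ⟩ := Submodule.exists_le_ker_of_notMem hb
    apply hφb
    let σ : Fin k → Fin k → ℝ := fun i j => φ (fun e => if (i, j) = e then 1 else 0)
    have hφs : ∀ y : Fin k × Fin k → ℝ, φ y = ∑ i, ∑ j, y (i, j) * σ i j := by
      intro y
      rw [LinearMap.pi_apply_eq_sum_univ φ y, Fintype.sum_prod_type]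
      rfl
    have hφd : ∀ δ : Fin k → ℂ,
        φ (fun e => if H.Adj e.1 e.2 then crs (δ e.1 - δ e.2) (p e.1 - p e.2) else 0) =
        ∑ i, crs (δ i) (∑ j, if H.Adj i j then ((σ i j + σ j i : ℝ) : ℂ) * (p i - p j) else 0) := by
      intro δ
      rw [hφs, ← parts_V13]
      refine Finset.sum_congr rfl fun i _ => Finset.sum_congr rfl fun j _ => ?_
      by_cases h : H.Adj i j
      · simp only [if_pos h]; ring
      · simp only [if_neg h]; ring
    -- the values at the nodes outside `Q`
    have hv : ∀ i, ¬ Q i →
        (∑ j, if H.Adj i j then ((σ i j + σ j i : ℝ) : ℂ) * (p i - p j) else 0) = 0 := by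
      intro i hi
      apply eq_zero_of_crs
      intro c
      have h1 : φ (T (Pi.single i c)) = 0 := hφ ⟨_, rfl⟩
      have h2 : m (Pi.single i c) = Pi.single i c := by
        funext j
        by_cases hj : Q j
        · have hne : j ≠ i := by rintro rfl; exact hi hj
          simp only [m, if_pos hj, Pi.single_eq_of_ne hne]
        · simp only [m, if_neg hj]
      have h3 : T (Pi.single i c) = fun e => if H.Adj e.1 e.2 then
          crs ((Pi.single i c : Fin k → ℂ) e.1 - (Pi.single i c : Fin k → ℂ) e.2)
            (p e.1 - p e.2) else 0 := by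
        funext e
        show (if H.Adj e.1 e.2 then crs (m (Pi.single i c) e.1 - m (Pi.single i c) e.2)
          (p e.1 - p e.2) else 0) = _
        rw [h2]
      rw [h3, hφd, Finset.sum_eq_single i] at h1
      · rw [Pi.single_eq_same] at h1
        exact h1
      · intro j _ hj
        rw [Pi.single_eq_of_ne hj, crs_l_zero]
      · intro h; exact absurd (Finset.mem_univ _) h
    let g : Fin k → Fin k → ℝ := fun i j => (σ i j + σ j i) * ‖p i - p j‖
    have hgs : ∀ i j, g i j = g j i := by
      intro i j
      simp only [g]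
      rw [norm_sub_rev (p i), add_comm (σ i j)]
    have hterm : ∀ i j, ((σ i j + σ j i : ℝ) : ℂ) * (p i - p j) =
        (g i j : ℂ) * un (p i - p j) := by
      intro i j
      have := mul_un (p i - p j)
      simp only [g]
      push_cast
      rw [mul_assoc, this]
    have hgl : ∀ i j l, H.Adj i j → H.Adj i l → g i j = g i l := by
      intro i j l hij hil
      by_cases hi : Q i
      · rw [hQ i hi j l hij hil]
      · obtain ⟨j₁, j₂, j₃, n12, n13, n23, hadj, hsum⟩ := hT i hi
        have h0 := hv i hi
        have hset : ∀ f : Fin k → ℂ, (∑ j, if H.Adj i j then f j else 0) =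
            f j₁ + f j₂ + f j₃ := by
          intro f
          rw [← Finset.sum_filter]
          have : (Finset.univ.filter fun j => H.Adj i j) = {j₁, j₂, j₃} := by
            ext l
            rw [Finset.mem_filter, Finset.mem_insert, Finset.mem_insert, Finset.mem_singleton]
            rw [hadj l]
            exact ⟨fun h => h.2, fun h => ⟨Finset.mem_univ _, h⟩⟩
          rw [this, Finset.sum_insert, Finset.sum_insert, Finset.sum_singleton, add_assoc]
          · rw [Finset.mem_singleton]; exact n23
          · rw [Finset.mem_insert, Finset.mem_singleton, not_or]; exact ⟨n12, n13⟩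
        rw [hset, hterm, hterm, hterm] at h0
        have a1 : H.Adj i j₁ := (hadj j₁).2 (Or.inl rfl)
        have a2 : H.Adj i j₂ := (hadj j₂).2 (Or.inr (Or.inl rfl))
        have a3 : H.Adj i j₃ := (hadj j₃).2 (Or.inr (Or.inr rfl))
        obtain ⟨q1, q2⟩ := three_V13 (norm_un (sub_ne_zero.2 (hp i j₁ a1)))
          (norm_un (sub_ne_zero.2 (hp i j₂ a2))) (norm_un (sub_ne_zero.2 (hp i j₃ a3))) hsum h0
        have hall : ∀ l, H.Adj i l → g i l = g i j₁ := by
          intro l hl
          rcases (hadj l).1 hl with rfl | rfl | rfl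
          · rfl
          · exact q1.symm
          · rw [q1, q2]
        rw [hall j hij, hall l hil]
    -- conclusion
    by_cases hE : ∃ i j, H.Adj i j
    · obtain ⟨i₀, j₀, h₀⟩ := hE
      have hκ : ∀ i j, H.Adj i j → g i j = g i₀ j₀ := by
        intro i j hij
        obtain ⟨w⟩ := hH i i₀
        exact const_V13 hgs hgl w j j₀ hij h₀
      have hb' : φ b = ∑ i, crs (W0 i)
          (∑ j, if H.Adj i j then ((σ i j + σ j i : ℝ) : ℂ) * (p i - p j) else 0) := hφd W0
      rw [hb']
      have hstep : ∀ i, crs (W0 i)
          (∑ j, if H.Adj i j then ((σ i j + σ j i : ℝ) : ℂ) * (p i - p j) else 0) =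
          g i₀ j₀ * (if Q i then crs (W i) (∑ j, if H.Adj i j then un (p i - p j) else 0)
            else 0) := by
        intro i
        have e1 : (∑ j, if H.Adj i j then ((σ i j + σ j i : ℝ) : ℂ) * (p i - p j) else 0) =
            (g i₀ j₀ : ℂ) * ∑ j, if H.Adj i j then un (p i - p j) else 0 := by
          rw [Finset.mul_sum]
          refine Finset.sum_congr rfl fun j _ => ?_
          by_cases h : H.Adj i j
          · rw [if_pos h, if_pos h, hterm, hκ i j h]
          · rw [if_neg h, if_neg h, mul_zero]
        rw [e1, crs_r_mul]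
        by_cases hi : Q i
        · simp only [W0, if_pos hi]
        · simp only [W0, if_neg hi, crs_l_zero]
      rw [Finset.sum_congr rfl fun i _ => hstep i, ← Finset.mul_sum, hW, mul_zero]
    · have : b = 0 := by
        funext e
        have : ¬ H.Adj e.1 e.2 := fun h => hE ⟨_, _, h⟩
        simp only [b, if_neg this, Pi.zero_apply]
      rw [this, map_zero]

end Pool.Agent.Helper8.GP
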