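import Pool.Agent.Helper8.GP.Var

/-!
# Chapter VAR, V14: length of the moving tree
-/

namespace Pool.Agent.Helper8.GP

open Pool.Agent.Helper18.GP Relation Classical Filter Topology

theorem un_neg (z : ℂ) : un (-z) = - un z := by
  unfold un; rw [norm_neg, neg_div]

theorem dt_un_self {e : ℂ} (he : e ≠ 0) : dt e (un e) = ‖e‖ := by
  have hn : (‖e‖ : ℝ) ≠ 0 := norm_ne_zero_iff.2 he
  have h2 : ‖e‖ ^ 2 = e.re ^ 2 + e.im ^ 2 := by
    rw [Complex.sq_norm, Complex.normSq_apply]; ring
  unfold un dt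
  rw [Complex.div_ofReal_re, Complex.div_ofReal_im]
  field_simp
  rw [h2]

theorem edge_lin {e w : ℂ} (he : e ≠ 0) (h : crs w e = 0) :
    ∀ᶠ t : ℝ in 𝓝 0, ‖e + t * w‖ = ‖e‖ + t * dt w (un e) := by
  have hn : (‖e‖ : ℝ) ≠ 0 := norm_ne_zero_iff.2 he
  have h2 : ‖e‖ ^ 2 = e.re ^ 2 + e.im ^ 2 := by
    rw [Complex.sq_norm, Complex.normSq_apply]; ring
  obtain ⟨c, hc⟩ : ∃ c : ℝ, w = (c : ℂ) * e := by
    refine ⟨dt w e / ‖e‖ ^ 2, ?_⟩
    unfold crs at h
    have hn2 : e.re ^ 2 + e.im ^ 2 ≠ 0 := by rw [← h2]; positivity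
    rw [h2]
    unfold dt
    apply Complex.ext
    · rw [Complex.re_ofReal_mul]
      field_simp
      linear_combination e.im * h
    · rw [Complex.im_ofReal_mul]
      field_simp
      linear_combination (-e.re) * h
  have h3 : dt w (un e) = c * ‖e‖ := by
    have : dt w (un e) = c * dt e (un e) := by
      rw [hc]; unfold dt
      rw [Complex.re_ofReal_mul, Complex.im_ofReal_mul]; ring
    rw [this, dt_un_self he]
  have h4 : ∀ᶠ t : ℝ in 𝓝 0, 0 < 1 + t * c := by
    have : Tendsto (fun t : ℝ => 1 + t * c) (𝓝 0) (𝓝 (1 + 0 * c)) := by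
      exact Continuous.tendsto (by fun_prop) 0
    apply this.eventually_const_lt
    norm_num
  filter_upwards [h4] with t ht
  have h5 : e + t * w = ((1 + t * c : ℝ) : ℂ) * e := by
    rw [hc]; push_cast; ring
  rw [h5, norm_mul, Complex.norm_real, Real.norm_of_nonneg ht.le, h3]
  ring

theorem m_LenF : stLenF := by
  intro k H p δ hp hδ
  have h1 : ∀ᶠ t : ℝ in 𝓝 0, ∀ e ∈ ((Finset.univ ×ˢ Finset.univ : Finset (Fin k × Fin k)).filter
      fun e => H.Adj e.1 e.2), ‖(p e.1 + t * δ e.1) - (p e.2 + t * δ e.2)‖ =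
      ‖p e.1 - p e.2‖ + t * dt (δ e.1 - δ e.2) (un (p e.1 - p e.2)) := by
    rw [Filter.eventually_all_finset]
    intro e he
    rw [Finset.mem_filter] at he
    filter_upwards [edge_lin (sub_ne_zero.2 (hp _ _ he.2)) (hδ _ _ he.2)] with t ht
    rw [← ht]
    congr 1
    ring
  filter_upwards [h1] with t ht
  unfold tlen
  rw [Finset.sum_congr rfl ht, Finset.sum_add_distrib, ← Finset.mul_sum]
  have h2 : ∑ e ∈ (Finset.univ ×ˢ Finset.univ : Finset (Fin k × Fin k)).filter
      (fun e => H.Adj e.1 e.2), dt (δ e.1 - δ e.2) (un (p e.1 - p e.2)) =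
      2 * ∑ i, dt (δ i) (∑ j, if H.Adj i j then un (p i - p j) else 0) := by
    have h3 : ∀ i, dt (δ i) (∑ j, if H.Adj i j then un (p i - p j) else 0) =
        ∑ j, if H.Adj i j then dt (δ i) (un (p i - p j)) else 0 := by
      intro i
      unfold dt
      rw [Complex.re_sum, Complex.im_sum, Finset.mul_sum, Finset.mul_sum,
        ← Finset.sum_add_distrib]
      apply Finset.sum_congr rfl
      intro j _
      split_ifs
      · rfl
      · simp
    rw [Finset.sum_filter, Finset.sum_product]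
    have h4 : ∀ i j, (if H.Adj i j then dt (δ i - δ j) (un (p i - p j)) else 0) =
        (if H.Adj i j then dt (δ i) (un (p i - p j)) else 0) +
        (if H.Adj j i then dt (δ j) (un (p j - p i)) else 0) := by
      intro i j
      by_cases h : H.Adj i j
      · rw [if_pos h, if_pos h, if_pos h.symm]
        have : p j - p i = -(p i - p j) := by ring
        rw [this, un_neg]
        unfold dt
        simp only [Complex.sub_re, Complex.sub_im, Complex.neg_re, Complex.neg_im]
        ring
      · have h' : ¬ H.Adj j i := fun h' => h h'.symm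
        rw [if_neg h, if_neg h, if_neg h', add_zero]
    simp_rw [h4, Finset.sum_add_distrib]
    rw [Finset.sum_comm (f := fun i j => if H.Adj j i then dt (δ j) (un (p j - p i)) else 0)]
    simp_rw [h3]
    ring
  rw [h2]
  ring

end Pool.Agent.Helper8.GP
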