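import Pool.Agent.Helper8.GP.Var

/-!
# Chapter VAR, V16, V17
-/

namespace Pool.Agent.Helper8.GP

open Pool.Agent.Helper18.GP Relation Classical Filter Topology

theorem m_ShN : stShN := by
  intro N V G x hx
  have h1 : ∀ᶠ y in 𝓝[Pts V G] x, ∀ v, x v ≠ 0 → y v ≠ 0 := by
    rw [Filter.eventually_all]
    intro v
    by_cases hv : x v = 0
    · exact Filter.Eventually.of_forall fun y h => absurd hv h
    · have h2 : Tendsto (fun y : Fin N → ℝ => y v) (𝓝[Pts V G] x) (𝓝 (x v)) :=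
        ((continuous_apply v).tendsto x).mono_left nhdsWithin_le_nhds
      filter_upwards [h2.eventually_ne hv] with y hy _
      exact hy
  filter_upwards [h1, self_mem_nhdsWithin] with y hy hyP
  intro a b ha hb hab
  refine hyP.2.2.2 a b ?_ ?_ hab
  · rcases ha with h | h
    · exact hy a h
    · exact h
  · rcases hb with h | h
    · exact hy b h
    · exact h

theorem St_near {N : ℕ} {V : Finset (Fin N)} {G : SimpleGraph (Fin N)} {P : Fin N → ℂ}
    (hS : St V G P) : ∀ᶠ Q in 𝓝 P, St V G Q := by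
  have h1 : ∀ᶠ Q in 𝓝 P, ∀ a b c : Fin N, (a ∈ V → b ∈ V → c ∈ V → Ccw a b c → G.Adj a b →
      G.Adj b c → G.Adj a c → 0 < crs (Q b - Q a) (Q c - Q a)) := by
    rw [Filter.eventually_all]
    intro a
    rw [Filter.eventually_all]
    intro b
    rw [Filter.eventually_all]
    intro c
    by_cases h : a ∈ V ∧ b ∈ V ∧ c ∈ V ∧ Ccw a b c ∧ G.Adj a b ∧ G.Adj b c ∧ G.Adj a c
    · obtain ⟨ha, hb, hc, h1, h2, h3, h4⟩ := h
      have h5 := hS a ha b hb c hc h1 h2 h3 h4
      have h6 : Tendsto (fun Q : Fin N → ℂ => crs (Q b - Q a) (Q c - Q a)) (𝓝 P)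
          (𝓝 (crs (P b - P a) (P c - P a))) := by
        apply Continuous.tendsto
        unfold crs
        fun_prop
      filter_upwards [h6.eventually_const_lt h5] with Q hQ _ _ _ _ _ _ _
      exact hQ
    · refine Filter.Eventually.of_forall fun Q ha hb hc h1 h2 h3 h4 => ?_
      exact absurd ⟨ha, hb, hc, h1, h2, h3, h4⟩ h
  filter_upwards [h1] with Q hQ
  intro a ha b hb c hc h1 h2 h3 h4
  exact hQ a b c ha hb hc h1 h2 h3 h4

theorem m_StrN (hS : stStraight) (hC : stCont) : stStrN := by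
  intro N V G P hT hSt x hx z hz hstr l Q X Z hQ hX hZ hXP hZP hxu hzu
  have hcont : ∀ (x z : Fin N → ℝ), x ∈ Pts V G → z ∈ Pts V G → ∀ X Z : ℝ → (Fin N → ℝ),
      Tendsto X l (𝓝 x) → Tendsto Z l (𝓝 z) → (∀ᶠ t in l, X t ∈ Pts V G) →
      (∀ᶠ t in l, Z t ∈ Pts V G) →
      Tendsto (fun t => dK V G (Q t) (X t) (Z t)) l (𝓝 (dK V G P x z)) := by
    intro x z hx hz X Z hX hZ hXP hZP
    have h1 := (hC N V G hT).continuousWithinAt (x := (P, x, z)) ⟨hx, hz⟩
    have h2 : Tendsto (fun t => (Q t, X t, Z t)) l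
        (𝓝[{q : (Fin N → ℂ) × (Fin N → ℝ) × (Fin N → ℝ) | q.2.1 ∈ Pts V G ∧ q.2.2 ∈ Pts V G}]
          (P, x, z)) := by
      rw [tendsto_nhdsWithin_iff]
      refine ⟨?_, ?_⟩
      · exact hQ.prodMk_nhds (hX.prodMk_nhds hZ)
      · filter_upwards [hXP, hZP] with t h1 h2
        exact ⟨h1, h2⟩
    exact h1.tendsto.comp h2
  have h0 := hcont x z hx hz X Z hX hZ hXP hZP
  have hStn : ∀ᶠ t in l, St V G (Q t) := hQ.eventually (St_near hSt)
  have h1 : ∀ᶠ t in l, ∀ u ∈ V, dl u ≠ X t → dl u ≠ Z t →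
      dK V G (Q t) (X t) (Z t) < dK V G (Q t) (X t) (dl u) + dK V G (Q t) (dl u) (Z t) := by
    rw [Filter.eventually_all_finset]
    intro u hu
    by_cases h1 : dl u = x
    · filter_upwards [hxu u hu h1] with t ht h2
      exact absurd ht.symm h2
    by_cases h2 : dl u = z
    · filter_upwards [hzu u hu h2] with t ht _ h3
      exact absurd ht.symm h3
    have h3 := hstr u hu h1 h2
    have hu' : (dl u : Fin N → ℝ) ∈ Pts V G := dl_mem G hu
    have h4 := hcont x (dl u) hx hu' X (fun _ => dl u) hX tendsto_const_nhds hXP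
      (Filter.Eventually.of_forall fun _ => hu')
    have h5 := hcont (dl u) z hu' hz (fun _ => dl u) Z tendsto_const_nhds hZ
      (Filter.Eventually.of_forall fun _ => hu') hZP
    filter_upwards [h0.eventually_lt (h4.add h5) h3] with t ht _ _
    exact ht
  filter_upwards [h1, hStn, hXP, hZP] with t h2 h3 h4 h5
  exact hS N V G (Q t) hT h3 (X t) h4 (Z t) h5 h2

end Pool.Agent.Helper8.GP
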