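import Pool.Agent.Helper8.GP.Var

/-!
# Gilbert-Pollak, VAR V18: nearby points in a given direction
-/

namespace Pool.Agent.Helper8.GP

open Pool.Agent.Helper18.GP Relation Classical Filter Topology

variable {N : ℕ}

/-- the direction of a straight geodesic at a point of a side -/
private theorem dir_V18 (h9 : stDir) {V : Finset (Fin N)} {G : SimpleGraph (Fin N)}
    {P : Fin N → ℂ} (hM : MetP V G P)
    (hpos : ∀ x ∈ Pts V G, ∀ y ∈ Pts V G, dK V G P x y = 0 → x = y)
    {x y : Fin N → ℝ} (hx : x ∈ Pts V G) (hy : y ∈ Pts V G) (hxy : x ≠ y)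
    (hd : dK V G P x y = ‖dev P x - dev P y‖) :
    ∃ z ∈ Pts V G, Sh G x z ∧ ∃ R : ℝ, 0 < R ∧
      dev P z - dev P x = R * un (dev P y - dev P x) := by
  obtain ⟨z, hz, hs, r, hr, he⟩ := h9 N V G P hM hpos x hx y hy hd hxy
  have hn : 0 < ‖dev P y - dev P x‖ := by
    rw [norm_pos_iff]
    intro h0
    apply hxy
    apply hpos x hx y hy
    rw [hd, norm_sub_rev, h0, norm_zero]
  refine ⟨z, hz, hs, r * ‖dev P y - dev P x‖, mul_pos hr hn, ?_⟩
  rw [he]
  unfold un
  have hc : ((‖dev P y - dev P x‖ : ℝ) : ℂ) ≠ 0 := by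
    exact_mod_cast hn.ne'
  push_cast
  field_simp

private theorem dev_comb_V18 (P : Fin N → ℂ) (x y z : Fin N → ℝ) (α β γ : ℝ) :
    dev P (fun v => α * x v + β * y v + γ * z v) =
      (α : ℂ) * dev P x + (β : ℂ) * dev P y + (γ : ℂ) * dev P z := by
  unfold dev
  rw [Finset.mul_sum, Finset.mul_sum, Finset.mul_sum, ← Finset.sum_add_distrib,
    ← Finset.sum_add_distrib]
  refine Finset.sum_congr rfl fun v _ => ?_
  push_cast; ring

theorem m_Near (h8 : stLS) (h9 : stDir) : stNear := by
  intro N V G P hSt hM hpos x hx hcase y hy z hz hxy hxz hdy hdz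
  rcases hcase with hI | hB
  · obtain ⟨X, hX1, hX2⟩ := h8 N V G P hSt x hx hI
    set g : ℂ := un (dev P y - dev P x) + un (dev P z - dev P x) with hg
    have ht : Tendsto (fun s : ℝ => (P, dev P x + (s : ℂ) * g)) (𝓝[>] 0)
        (𝓝 (P, dev P x)) := by
      have hc : Continuous (fun s : ℝ => (P, dev P x + (s : ℂ) * g)) := by
        fun_prop
      have := hc.tendsto 0
      simp only [Complex.ofReal_zero, zero_mul, add_zero] at this
      exact this.mono_left nhdsWithin_le_nhds
    refine ⟨fun s => X (P, dev P x + (s : ℂ) * g), hX1.comp ht, ?_⟩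
    filter_upwards [ht.eventually hX2] with s hs
    exact hs
  · obtain ⟨a, ha, b, hb, c, hc, _, hab, hac, hcb, hsup, hface⟩ := hB
    obtain ⟨y', hy', hsy, R, hR, hey⟩ := dir_V18 h9 hM hpos hx hy hxy hdy
    obtain ⟨z', hz', hsz, R', hR', hez⟩ := dir_V18 h9 hM hpos hx hz hxz hdz
    set e : ℂ := un (dev P y - dev P x) with he
    set f : ℂ := un (dev P z - dev P x) with hf
    have hxs : ∀ v, x v ≠ 0 → v = a ∨ v = b ∨ v = c := fun v hv => by
      rcases (hsup v).1 hv with h | h
      · exact Or.inl h
      · exact Or.inr (Or.inl h)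
    have hys := hface y' hy' hsy
    have hzs := hface z' hz' hsz
    refine ⟨fun s v => (1 - s / R - s / R') * x v + (s / R) * y' v + (s / R') * z' v, ?_, ?_⟩
    · rw [tendsto_pi_nhds]
      intro v
      have hcont : Continuous fun s : ℝ =>
          (1 - s / R - s / R') * x v + (s / R) * y' v + (s / R') * z' v := by
        fun_prop
      have := hcont.tendsto 0
      simp only [zero_div, sub_zero, one_mul, zero_mul, add_zero] at this
      exact this.mono_left nhdsWithin_le_nhds
    · have h1 : ∀ᶠ s : ℝ in 𝓝[>] 0, 0 < s := eventually_mem_nhdsWithin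
      have h2 : ∀ᶠ s : ℝ in 𝓝[>] 0, s < R / 2 :=
        nhdsWithin_le_nhds (Iio_mem_nhds (half_pos hR))
      have h3 : ∀ᶠ s : ℝ in 𝓝[>] 0, s < R' / 2 :=
        nhdsWithin_le_nhds (Iio_mem_nhds (half_pos hR'))
      filter_upwards [h1, h2, h3] with s hs0 hs1 hs2
      have e1 : 0 < s / R := div_pos hs0 hR
      have e2 : 0 < s / R' := div_pos hs0 hR'
      have e3 : s / R < 1 / 2 := by rw [div_lt_iff₀ hR]; linarith
      have e4 : s / R' < 1 / 2 := by rw [div_lt_iff₀ hR']; linarith
      refine ⟨⟨?_, ?_, ?_, ?_⟩, ?_⟩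
      · intro v
        have a1 := hx.1 v
        have a2 := hy'.1 v
        have a3 := hz'.1 v
        have b1 : 0 ≤ (1 - s / R - s / R') * x v := mul_nonneg (by linarith) a1
        have b2 : 0 ≤ (s / R) * y' v := mul_nonneg e1.le a2
        have b3 : 0 ≤ (s / R') * z' v := mul_nonneg e2.le a3
        show 0 ≤ (1 - s / R - s / R') * x v + (s / R) * y' v + (s / R') * z' v
        linarith
      · show ∑ v, ((1 - s / R - s / R') * x v + (s / R) * y' v + (s / R') * z' v) = 1
        rw [Finset.sum_add_distrib, Finset.sum_add_distrib, ← Finset.mul_sum, ← Finset.mul_sum,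
          ← Finset.mul_sum, hx.2.1, hy'.2.1, hz'.2.1]
        ring
      · intro v hv
        have : x v ≠ 0 ∨ y' v ≠ 0 ∨ z' v ≠ 0 := by
          by_contra hcon
          push Not at hcon
          apply hv
          show (1 - s / R - s / R') * x v + (s / R) * y' v + (s / R') * z' v = 0
          rw [hcon.1, hcon.2.1, hcon.2.2]
          ring
        rcases this with h | h | h
        · exact hx.2.2.1 v h
        · exact hy'.2.2.1 v h
        · exact hz'.2.2.1 v h
      · intro u v hu hv huv
        have key : ∀ w, (fun v => (1 - s / R - s / R') * x v + (s / R) * y' v +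
            (s / R') * z' v) w ≠ 0 → w = a ∨ w = b ∨ w = c := by
          intro w hw
          have : x w ≠ 0 ∨ y' w ≠ 0 ∨ z' w ≠ 0 := by
            by_contra hcon
            push Not at hcon
            apply hw
            show (1 - s / R - s / R') * x w + (s / R) * y' w + (s / R') * z' w = 0
            rw [hcon.1, hcon.2.1, hcon.2.2]
            ring
          rcases this with h | h | h
          · exact hxs w h
          · exact hys w h
          · exact hzs w h
        have hba := hab.symm
        have hca := hac.symm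
        have hbc := hcb.symm
        rcases key u hu with rfl | rfl | rfl <;> rcases key v hv with rfl | rfl | rfl <;>
          first
          | exact absurd rfl huv
          | assumption
      · show dev P (fun v => (1 - s / R - s / R') * x v + (s / R) * y' v + (s / R') * z' v) =
          dev P x + s * (e + f)
        rw [dev_comb_V18]
        have k1 : dev P y' = dev P x + R * e := by rw [← hey]; ring
        have k2 : dev P z' = dev P x + R' * f := by rw [← hez]; ring
        rw [k1, k2]
        have c1 : (R : ℂ) ≠ 0 := by exact_mod_cast hR.ne'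
        have c2 : (R' : ℂ) ≠ 0 := by exact_mod_cast hR'.ne'
        push_cast
        field_simp
        ring

end Pool.Agent.Helper8.GP
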