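import Pool.Agent.Helper8.GP.Var

/-!
# Chapter VAR, module V19: the angle condition at a node
-/

namespace Pool.Agent.Helper8.GP

open Pool.Agent.Helper18.GP Relation Classical Filter Topology

theorem m_Pair (h6 : stExch) (h18 : stNear) (h16 : stShN) (h17 : stStrN) (h10 : stAng)
    (hS : stStraight) : stPair := by
  intro N V G P hT hSt M hpos A hAV k H x T O i hi hD j l hj hl hjl
  have hne : ∀ j, H.Adj i j → x i ≠ x j := fun j hj e => H.ne_of_adj hj (T.inj e)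
  have hdist : ∀ j, H.Adj i j → dK V G P (x i) (x j) = ‖dev P (x i) - dev P (x j)‖ := fun j hj =>
    hS N V G P hT hSt (x i) (T.pts i) (x j) (T.pts j) (O.edge i j hj)
  have hp : ∀ j, H.Adj i j → dev P (x j) - dev P (x i) ≠ 0 := by
    intro j hj e
    apply hne j hj
    apply hpos _ (T.pts i) _ (T.pts j)
    rw [hdist j hj, norm_sub_rev, e, norm_zero]
  have hun : ∀ {z : ℂ}, z ≠ 0 → ‖un z‖ = 1 := by
    intro z h
    unfold un
    rw [norm_div, Complex.norm_real, norm_norm, div_self (norm_ne_zero_iff.2 h)]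
  have hmul : ∀ {z : ℂ}, z ≠ 0 → (‖z‖ : ℂ) * un z = z := by
    intro z h
    unfold un
    rw [mul_div_cancel₀]
    exact_mod_cast norm_ne_zero_iff.2 h
  obtain ⟨Y, hY, hYe⟩ := h18 N V G P hSt M hpos (x i) (T.pts i) hD (x j) (T.pts j) (x l) (T.pts l)
    (hne j hj) (hne l hl) (hdist j hj) (hdist l hl)
  have hYP : ∀ᶠ s : ℝ in 𝓝[>] 0, Y s ∈ Pts V G := hYe.mono fun s h => h.1
  have hstr : ∀ j, H.Adj i j → ∀ᶠ s : ℝ in 𝓝[>] 0,
      dK V G P (Y s) (x j) = ‖dev P (Y s) - dev P (x j)‖ := by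
    intro j hj
    refine h17 N V G P hT hSt (x i) (T.pts i) (x j) (T.pts j) (O.edge i j hj) (𝓝[>] 0)
      (fun _ => P) Y (fun _ => x j) tendsto_const_nhds hY tendsto_const_nhds hYP
      (Eventually.of_forall fun _ => T.pts j) ?_ ?_
    · intro u hu e
      exact absurd e.symm (hi u hu)
    · intro u _ e
      exact Eventually.of_forall fun _ => e.symm
  have hsh : ∀ᶠ s : ℝ in 𝓝[>] 0, Sh G (x i) (Y s) := by
    have h1 : Tendsto Y (𝓝[>] 0) (𝓝[Pts V G] (x i)) := tendsto_nhdsWithin_iff.2 ⟨hY, hYP⟩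
    exact h1.eventually (h16 N V G (x i) (T.pts i))
  apply h10 _ _ ‖dev P (x j) - dev P (x i)‖ ‖dev P (x l) - dev P (x i)‖ (hun (hp j hj))
    (hun (hp l hl)) (norm_pos_iff.2 (hp j hj)) (norm_pos_iff.2 (hp l hl))
  filter_upwards [hYe, hstr j hj, hstr l hl, hsh] with s h1 h2 h3 h4
  have h5 := h6 N V G P M A hAV k H x T i j l hj hl hjl (Y s) h1.1
  rw [hdist j hj, hdist l hl, h2, h3, M.sh _ (T.pts i) _ h1.1 h4, h1.2] at h5
  rw [hmul (hp j hj), hmul (hp l hl)]
  set g := un (dev P (x j) - dev P (x i)) + un (dev P (x l) - dev P (x i)) with hg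
  have e1 : ‖dev P (x i) - (dev P (x i) + s * g)‖ = ‖(s : ℂ) * g‖ := by
    rw [← norm_neg]; congr 1; ring
  have e2 : ‖dev P (x i) + s * g - dev P (x j)‖ = ‖dev P (x j) - dev P (x i) - s * g‖ := by
    rw [← norm_neg]; congr 1; ring
  have e3 : ‖dev P (x i) + s * g - dev P (x l)‖ = ‖dev P (x l) - dev P (x i) - s * g‖ := by
    rw [← norm_neg]; congr 1; ring
  rw [e1, e2, e3, norm_sub_rev (dev P (x i)) (dev P (x j)),
    norm_sub_rev (dev P (x i)) (dev P (x l))] at h5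
  exact h5

end Pool.Agent.Helper8.GP
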