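import Pool.Agent.Helper8.GP.Var

set_option autoImplicit false

namespace Pool.Agent.Helper8.GP

open Pool.Agent.Helper18.GP Relation Classical Filter Topology

theorem m_Cmp : stCmp := by
  intro k H hT i j hij
  have hsw : H.deleteEdges {s(j, i)} = H.deleteEdges {s(i, j)} := by rw [Sym2.eq_swap]
  have hbr : ¬ (H.deleteEdges {s(i, j)}).Reachable i j := by
    have h1 : H.IsBridge s(i, j) :=
      SimpleGraph.isAcyclic_iff_forall_edge_isBridge.1 hT.isAcyclic (H.mem_edgeSet.2 hij)
    have h2 := SimpleGraph.isBridge_iff.1 h1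
    intro h
    refine (by simpa [SimpleGraph.deleteEdges] using h2 : ¬ _) ?_
    simpa [SimpleGraph.deleteEdges] using h
  have third : ∀ l m, H.Adj l m → ¬ (l = i ∧ m = j) → ¬ (l = j ∧ m = i) →
      (H.deleteEdges {s(i, j)}).Adj l m := by
    intro l m h h1 h2
    rw [SimpleGraph.deleteEdges_adj]
    refine ⟨h, ?_⟩
    rw [Set.mem_singleton_iff, Sym2.eq_iff]
    rintro (⟨h3, h4⟩ | ⟨h3, h4⟩)
    · exact h1 ⟨h3, h4⟩
    · exact h2 ⟨h3, h4⟩
  refine ⟨?_, ?_, ?_⟩
  · intro l
    obtain ⟨w⟩ := hT.isConnected.preconnected l i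
    -- induct on the walk from `l` to `i`
    suffices h : ∀ u v (_ : H.Walk u v), v = i → (Cmp H i j u ∨ Cmp H j i u) from h l i w rfl
    intro u v w
    induction w with
    | nil => rintro rfl; exact Or.inl (SimpleGraph.Reachable.refl _)
    | @cons u v' _ h p ih =>
      intro hv
      by_cases h1 : u = i ∧ v' = j
      · rw [h1.1]; exact Or.inl (SimpleGraph.Reachable.refl _)
      by_cases h2 : u = j ∧ v' = i
      · rw [h2.1]; exact Or.inr (SimpleGraph.Reachable.refl _)
      have h3 := third u v' h h1 h2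
      rcases ih hv with h4 | h4
      · exact Or.inl (SimpleGraph.Reachable.trans h4 h3.symm.reachable)
      · refine Or.inr ?_
        unfold Cmp at h4 ⊢
        rw [hsw] at h4 ⊢
        exact SimpleGraph.Reachable.trans h4 h3.symm.reachable
  · intro l h1 h2
    unfold Cmp at h1 h2
    rw [hsw] at h2
    exact hbr (h1.trans h2.symm)
  · intro l m h h1 h2
    have h3 := third l m h h1 h2
    exact ⟨fun h4 => SimpleGraph.Reachable.trans h4 h3.reachable,
      fun h4 => SimpleGraph.Reachable.trans h4 h3.symm.reachable⟩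

end Pool.Agent.Helper8.GP
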