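import Pool.Agent.Helper8.GP.Var

namespace Pool.Agent.Helper8.GP

open Pool.Agent.Helper18.GP Relation Classical Filter Topology

private lemma refl_V3 {k : ℕ} (H : SimpleGraph (Fin k)) (i j : Fin k) : Cmp H i j i :=
  SimpleGraph.Reachable.refl i

private lemma L0_V3 (h2 : stCmp) {k : ℕ} {H : SimpleGraph (Fin k)} (hH : H.IsTree)
    {i j j' : Fin k} (hj : H.Adj i j) (hj' : H.Adj i j') (hne : j ≠ j') {l : Fin k}
    (hl : Cmp H j' i l) : Cmp H i j l := by
  have key : ∀ l, Relation.ReflTransGen (H.deleteEdges {s(j', i)}).Adj j' l →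
      Cmp H i j l ∧ Cmp H j' i l := by
    intro l hl
    induction hl with
    | refl =>
      refine ⟨?_, refl_V3 H j' i⟩
      refine ((h2 k H hH i j hj).2.2 i j' hj' (fun h => hne h.2.symm) ?_).1 (refl_V3 H i j)
      exact fun h => hj'.ne h.2.symm
    | @tail l m _ hlm ih =>
      have hr : Cmp H j' i m := by
        have h1 : (H.deleteEdges {s(j', i)}).Reachable j' l := ih.2
        exact h1.trans hlm.reachable
      refine ⟨?_, hr⟩
      have hadj : H.Adj l m := (SimpleGraph.deleteEdges_le _) hlm
      by_cases c1 : l = i ∧ m = j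
      · exfalso
        have h3 := ih.2
        rw [c1.1] at h3
        exact (h2 k H hH j' i hj'.symm).2.1 i h3 (refl_V3 H i j')
      · by_cases c2 : l = j ∧ m = i
        · rw [c2.2]; exact refl_V3 H i j
        · exact ((h2 k H hH i j hj).2.2 l m hadj c1 c2).1 ih.1
  exact (key l ((SimpleGraph.reachable_iff_reflTransGen _ _).1 hl)).1

private lemma L1_V3 (h2 : stCmp) {k : ℕ} {H : SimpleGraph (Fin k)} (hH : H.IsTree)
    {i j j' : Fin k} (hj : H.Adj i j) (hj' : H.Adj i j') (hne : j ≠ j') {l : Fin k}
    (hl : Cmp H j i l) (hl' : Cmp H j' i l) : False :=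
  (h2 k H hH i j hj).2.1 l (L0_V3 h2 hH hj hj' hne hl') hl

private lemma L2_V3 (h2 : stCmp) {k : ℕ} {H : SimpleGraph (Fin k)} (hH : H.IsTree)
    (Q : Fin k → Prop) (hQ : ∀ i, ¬ Q i → 3 ≤ dg H i) : ∀ n : ℕ, ∀ i j : Fin k, H.Adj i j →
    (Finset.univ.filter fun l => Cmp H i j l).card ≤ n → ∃ l, Cmp H i j l ∧ Q l := by
  intro n
  induction n with
  | zero =>
    intro i j hij hc
    exfalso
    have : i ∈ Finset.univ.filter fun l => Cmp H i j l := by
      simp [refl_V3 H i j]
    have := Finset.card_pos.2 ⟨i, this⟩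
    omega
  | succ n ih =>
    intro i j hij hc
    by_cases hi : Q i
    · exact ⟨i, refl_V3 H i j, hi⟩
    · have h3 := hQ i hi
      have : ∃ j', H.Adj i j' ∧ j' ≠ j := by
        by_contra hcon
        push Not at hcon
        have : (Finset.univ.filter fun j => H.Adj i j) ⊆ {j} := by
          intro m hm
          rw [Finset.mem_filter] at hm
          rw [Finset.mem_singleton]
          exact hcon m hm.2
        have := Finset.card_le_card this
        rw [Finset.card_singleton] at this
        unfold dg at h3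
        omega
      obtain ⟨j', hj', hne⟩ := this
      have hsub : (Finset.univ.filter fun l => Cmp H j' i l) ⊂
          Finset.univ.filter fun l => Cmp H i j l := by
        rw [Finset.ssubset_iff_of_subset]
        · refine ⟨i, by simp [refl_V3 H i j], ?_⟩
          intro h
          rw [Finset.mem_filter] at h
          exact (h2 k H hH j' i hj'.symm).2.1 i h.2 (refl_V3 H i j')
        · intro l hl
          rw [Finset.mem_filter] at hl ⊢
          exact ⟨hl.1, L0_V3 h2 hH hij hj' hne.symm hl.2⟩
      have hlt := Finset.card_lt_card hsub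
      obtain ⟨l, hl, hql⟩ := ih j' i hj'.symm (by omega)
      exact ⟨l, L0_V3 h2 hH hij hj' hne.symm hl, hql⟩

theorem m_Leaf (h2 : stCmp) : stLeaf := by
  intro k H hH Q hQ i j hij m hm
  by_cases hmi : m = i
  · subst hmi
    have hdeg : 2 ≤ dg H m := by
      rcases hm with h | h
      · exact absurd rfl h
      · exact h
    have : ∃ j', H.Adj m j' ∧ j' ≠ j := by
      by_contra hcon
      push Not at hcon
      have : (Finset.univ.filter fun j => H.Adj m j) ⊆ {j} := by
        intro l hl
        rw [Finset.mem_filter] at hl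
        rw [Finset.mem_singleton]
        exact hcon l hl.2
      have := Finset.card_le_card this
      rw [Finset.card_singleton] at this
      unfold dg at hdeg
      omega
    obtain ⟨j', hj', hne⟩ := this
    obtain ⟨l, hl, hql⟩ := L2_V3 h2 hH Q hQ _ j' m hj'.symm le_rfl
    refine ⟨l, L0_V3 h2 hH hij hj' hne.symm hl, hql, ?_⟩
    rintro rfl
    exact (h2 k H hH j' l hj'.symm).2.1 l hl (refl_V3 H l j')
  · by_cases hi : Q i
    · exact ⟨i, refl_V3 H i j, hi, fun h => hmi h.symm⟩
    · have h3 := hQ i hi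
      have hc : 1 < ((Finset.univ.filter fun j => H.Adj i j).erase j).card := by
        rw [Finset.card_erase_of_mem (by simp [hij])]
        unfold dg at h3
        omega
      obtain ⟨j', hj', j'', hj'', hne⟩ := Finset.one_lt_card.1 hc
      simp only [Finset.mem_erase, Finset.mem_filter, Finset.mem_univ, true_and] at hj' hj''
      obtain ⟨l', hl', hq'⟩ := L2_V3 h2 hH Q hQ _ j' i hj'.2.symm le_rfl
      obtain ⟨l'', hl'', hq''⟩ := L2_V3 h2 hH Q hQ _ j'' i hj''.2.symm le_rfl
      by_cases hm' : l' = m
      · refine ⟨l'', L0_V3 h2 hH hij hj''.2 (Ne.symm hj''.1) hl'', hq'', ?_⟩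
        rintro rfl
        rw [hm'] at hl'
        exact L1_V3 h2 hH hj'.2 hj''.2 hne hl' hl''
      · exact ⟨l', L0_V3 h2 hH hij hj'.2 (Ne.symm hj'.1) hl', hq', hm'⟩

end Pool.Agent.Helper8.GP
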