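import Pool.Agent.Helper8.GP.Var

/-!
# Gilbert-Pollak, chapter VAR, module V4 (helper40): cost of cutting a tree at an edge
-/

set_option autoImplicit false

namespace Pool.Agent.Helper8.GP

open Pool.Agent.Helper18.GP Relation Classical Filter Topology

/-- the edges as pairs `i < j` -/
noncomputable def EE_V4 {k : ℕ} (H : SimpleGraph (Fin k)) : Finset (Fin k × Fin k) :=
  Finset.univ.filter fun e => e.1 < e.2 ∧ H.Adj e.1 e.2

/-- the ordered pair -/
def e0_V4 {k : ℕ} (i j : Fin k) : Fin k × Fin k := if i < j then (i, j) else (j, i)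

theorem mem_EE_V4 {k : ℕ} {H : SimpleGraph (Fin k)} {e : Fin k × Fin k} :
    e ∈ EE_V4 H ↔ e.1 < e.2 ∧ H.Adj e.1 e.2 := by
  unfold EE_V4
  rw [Finset.mem_filter]
  exact ⟨fun h => h.2, fun h => ⟨Finset.mem_univ _, h⟩⟩

theorem e0_mem_V4 {k : ℕ} {H : SimpleGraph (Fin k)} {i j : Fin k} (h : H.Adj i j) :
    e0_V4 i j ∈ EE_V4 H := by
  rw [mem_EE_V4]
  unfold e0_V4
  split_ifs with hij
  · exact ⟨hij, h⟩
  · exact ⟨lt_of_le_of_ne (not_lt.1 hij) h.ne.symm, h.symm⟩

theorem e0_val_V4 {k : ℕ} {X : Type*} (d : X → X → ℝ) (x : Fin k → X)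
    (hd : ∀ i j, d (x i) (x j) = d (x j) (x i)) (i j : Fin k) :
    d (x (e0_V4 i j).1) (x (e0_V4 i j).2) = d (x i) (x j) := by
  unfold e0_V4
  split_ifs
  · rfl
  · exact hd j i

/-- an ordered adjacent pair is `e0` -/
theorem e0_of_mem_V4 {k : ℕ} {a b : Fin k} :
    e0_V4 a b = (a, b) ∨ e0_V4 a b = (b, a) := by
  unfold e0_V4
  split_ifs
  · exact Or.inl rfl
  · exact Or.inr rfl

theorem tlen_EE_V4 {k : ℕ} {X : Type*} (d : X → X → ℝ) (H : SimpleGraph (Fin k))
    (x : Fin k → X) (hd : ∀ i j, d (x i) (x j) = d (x j) (x i)) :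
    tlen d H x = ∑ e ∈ EE_V4 H, d (x e.1) (x e.2) := by
  have hU : (Finset.univ ×ˢ Finset.univ : Finset (Fin k × Fin k)).filter
      (fun p => H.Adj p.1 p.2) = EE_V4 H ∪ (EE_V4 H).image Prod.swap := by
    ext ⟨a, b⟩
    rw [Finset.mem_filter, Finset.mem_union, Finset.mem_image, mem_EE_V4]
    constructor
    · rintro ⟨_, h⟩
      rcases lt_or_gt_of_ne h.ne with h1 | h1
      · exact Or.inl ⟨h1, h⟩
      · exact Or.inr ⟨(b, a), mem_EE_V4.2 ⟨h1, h.symm⟩, rfl⟩
    · rintro (h | ⟨⟨c, e⟩, h1, h2⟩)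
      · exact ⟨by simp, h.2⟩
      · rw [mem_EE_V4] at h1
        simp only [Prod.swap_prod_mk, Prod.mk.injEq] at h2
        obtain ⟨rfl, rfl⟩ := h2
        exact ⟨by simp, h1.2.symm⟩
  have hdis : Disjoint (EE_V4 H) ((EE_V4 H).image Prod.swap) := by
    rw [Finset.disjoint_left]
    rintro ⟨a, b⟩ h1 h2
    rw [Finset.mem_image] at h2
    obtain ⟨⟨c, e⟩, h3, h4⟩ := h2
    rw [mem_EE_V4] at h1 h3
    simp only [Prod.swap_prod_mk, Prod.mk.injEq] at h4
    obtain ⟨rfl, rfl⟩ := h4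
    exact lt_asymm h1.1 h3.1
  unfold tlen
  rw [hU, Finset.sum_union hdis, Finset.sum_image (fun a _ b _ h => Prod.swap_injective h)]
  have : ∑ e ∈ EE_V4 H, d (x (Prod.swap e).1) (x (Prod.swap e).2) =
      ∑ e ∈ EE_V4 H, d (x e.1) (x e.2) :=
    Finset.sum_congr rfl fun e _ => hd _ _
  rw [this]
  ring

/-- pairs of old nodes -/
noncomputable def im_V4 {k : ℕ} (F : Finset (Fin k × Fin k)) :
    Finset (Option (Fin k) × Option (Fin k)) := F.image fun e => (some e.1, some e.2)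

theorem mem_im_V4 {k : ℕ} {F : Finset (Fin k × Fin k)} {a b : Fin k} :
    ((some a, some b) : Option (Fin k) × Option (Fin k)) ∈ im_V4 F ↔ (a, b) ∈ F := by
  unfold im_V4
  rw [Finset.mem_image]
  constructor
  · rintro ⟨⟨c, e⟩, h1, h2⟩
    simp only [Prod.mk.injEq, Option.some.injEq] at h2
    obtain ⟨rfl, rfl⟩ := h2
    exact h1
  · intro h; exact ⟨(a, b), h, rfl⟩

theorem not_mem_im_V4 {k : ℕ} {F : Finset (Fin k × Fin k)} (a : Option (Fin k)) :
    (a, none) ∉ im_V4 F ∧ (none, a) ∉ im_V4 F := by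
  unfold im_V4
  constructor
  · rw [Finset.mem_image]
    rintro ⟨⟨c, e⟩, _, h2⟩
    simp at h2
  · rw [Finset.mem_image]
    rintro ⟨⟨c, e⟩, _, h2⟩
    simp at h2

theorem sum_im_V4 {k : ℕ} {X : Type*} (d : X → X → ℝ) (F : Finset (Fin k × Fin k))
    (y : Option (Fin k) → X) :
    ∑ e ∈ im_V4 F, d (y e.1) (y e.2) = ∑ e ∈ F, d (y (some e.1)) (y (some e.2)) := by
  unfold im_V4
  rw [Finset.sum_image]
  rintro ⟨a, b⟩ _ ⟨c, e⟩ _ h
  simp only [Prod.mk.injEq, Option.some.injEq] at h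
  rw [h.1, h.2]

/-- one side of the cut -/
private theorem side_V4 (h1 : stUp) {N : ℕ} {V : Finset (Fin N)} {G : SimpleGraph (Fin N)}
    {P : Fin N → ℂ} (hM : MetP V G P) {A : Finset (Fin N)} {k : ℕ} {H : SimpleGraph (Fin k)}
    {x : Fin k → (Fin N → ℝ)} (hx : ∀ i, x i ∈ Pts V G) (i j : Fin k) {u : Fin N} (hu : u ∈ V) :
    Ln V G P (insert u (A.filter fun a => a ≠ u ∧ ∃ l, Cmp H i j l ∧ x l = dl a)) ≤
      dK V G P (x i) (dl u) +
        ∑ e ∈ (EE_V4 H).filter (fun e => Cmp H i j e.1 ∧ Cmp H i j e.2),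
          dK V G P (x e.1) (x e.2) := by
  set F := (EE_V4 H).filter (fun e => Cmp H i j e.1 ∧ Cmp H i j e.2) with hF
  let y : Option (Fin k) → (Fin N → ℝ) := fun o => match o with
    | none => dl u
    | some l => x l
  have hy : ∀ o, y o ∈ Pts V G := by
    intro o
    cases o with
    | none => exact dl_mem G hu
    | some l => exact hx l
  let S : Finset (Option (Fin k) × Option (Fin k)) := insert (some i, none) (im_V4 F)
  have hstep : ∀ a b : Fin k, (H.deleteEdges {s(i, j)}).Adj a b → Cmp H i j a →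
      Cmp H i j b ∧ EqvGen (fun p q => (p, q) ∈ S) (some a) (some b) := by
    intro a b hab ha
    have hb : Cmp H i j b := SimpleGraph.Reachable.trans ha hab.reachable
    have hH : H.Adj a b := (SimpleGraph.deleteEdges_adj.1 hab).1
    refine ⟨hb, ?_⟩
    rcases lt_or_gt_of_ne hH.ne with hlt | hlt
    · apply EqvGen.rel
      apply Finset.mem_insert_of_mem
      rw [mem_im_V4, hF, Finset.mem_filter]
      exact ⟨mem_EE_V4.2 ⟨hlt, hH⟩, ha, hb⟩
    · apply EqvGen.symm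
      apply EqvGen.rel
      apply Finset.mem_insert_of_mem
      rw [mem_im_V4, hF, Finset.mem_filter]
      exact ⟨mem_EE_V4.2 ⟨hlt, hH.symm⟩, hb, ha⟩
  have hwalk : ∀ a b : Fin k, (H.deleteEdges {s(i, j)}).Walk a b → Cmp H i j a →
      EqvGen (fun p q => (p, q) ∈ S) (some a) (some b) := by
    intro a b w
    induction w with
    | nil => intro _; exact EqvGen.refl _
    | cons h w ih =>
      intro ha
      obtain ⟨h1, h2⟩ := hstep _ _ h ha
      exact EqvGen.trans _ _ _ h2 (ih h1)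
  have hnode : ∀ l, Cmp H i j l → EqvGen (fun p q => (p, q) ∈ S) (some i) (some l) := by
    rintro l ⟨w⟩
    exact hwalk i l w (SimpleGraph.Reachable.refl i)
  have hB : ∀ a ∈ insert u (A.filter fun a => a ≠ u ∧ ∃ l, Cmp H i j l ∧ x l = dl a),
      ∃ o, y o = dl a ∧ EqvGen (fun p q => (p, q) ∈ S) (some i) o := by
    intro a ha
    rcases Finset.mem_insert.1 ha with rfl | ha
    · exact ⟨none, rfl, EqvGen.rel _ _ (Finset.mem_insert_self _ _)⟩
    · obtain ⟨_, _, l, hl, hxl⟩ := Finset.mem_filter.1 ha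
      exact ⟨some l, hxl, hnode l hl⟩
  have key := h1 N V G P hM (Option (Fin k)) S y hy
    (insert u (A.filter fun a => a ≠ u ∧ ∃ l, Cmp H i j l ∧ x l = dl a)) (by
      intro a ha b hb
      obtain ⟨o, e1, e2⟩ := hB a ha
      obtain ⟨o', e1', e2'⟩ := hB b hb
      exact ⟨o, o', e1, e1', EqvGen.trans _ _ _ (EqvGen.symm _ _ e2) e2'⟩)
  have hsum : ∑ e ∈ S, dK V G P (y e.1) (y e.2) = dK V G P (x i) (dl u) +
      ∑ e ∈ F, dK V G P (x e.1) (x e.2) := by
    show ∑ e ∈ insert (some i, none) (im_V4 F), dK V G P (y e.1) (y e.2) = _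
    rw [Finset.sum_insert (not_mem_im_V4 _).1, sum_im_V4]
  rw [hsum] at key
  exact key

/-- **V4**: cost of cutting the tree at an edge -/
theorem m_Cost (h1 : stUp) (h2 : stCmp) : stCost := by
  intro N V G P hM A hA k H x hT i j hij u hu
  have pu : dl u ∈ Pts V G := dl_mem G hu
  have hsym : ∀ a b, dK V G P (x a) (x b) = dK V G P (x b) (x a) :=
    fun a b => hM.symm _ (hT.pts a) _ (hT.pts b)
  obtain ⟨c1, c2, c3⟩ := h2 k H hT.tree i j hij
  have k1 := side_V4 h1 (A := A) (H := H) hM hT.pts i j hu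
  have k2 := side_V4 h1 (A := A) (H := H) hM hT.pts j i hu
  rw [tlen_EE_V4 (dK V G P) H x hsym]
  set F1 := (EE_V4 H).filter (fun e => Cmp H i j e.1 ∧ Cmp H i j e.2) with hF1
  set F2 := (EE_V4 H).filter (fun e => Cmp H j i e.1 ∧ Cmp H j i e.2) with hF2
  have r1 : Cmp H i j i := SimpleGraph.Reachable.refl i
  have r2 : Cmp H j i j := SimpleGraph.Reachable.refl j
  have hd : Disjoint F1 F2 := by
    rw [Finset.disjoint_left]
    intro e he he'
    exact c2 _ (Finset.mem_filter.1 he).2.1 (Finset.mem_filter.1 he').2.1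
  have h0 : e0_V4 i j ∉ F1 ∪ F2 := by
    intro h
    rcases Finset.mem_union.1 h with h | h
    · have h' := (Finset.mem_filter.1 h).2
      rcases e0_of_mem_V4 (a := i) (b := j) with e | e
      · rw [e] at h'; exact c2 _ h'.2 r2
      · rw [e] at h'; exact c2 _ h'.1 r2
    · have h' := (Finset.mem_filter.1 h).2
      rcases e0_of_mem_V4 (a := i) (b := j) with e | e
      · rw [e] at h'; exact c2 _ r1 h'.1
      · rw [e] at h'; exact c2 _ r1 h'.2
  have hsub : insert (e0_V4 i j) (F1 ∪ F2) ⊆ EE_V4 H := by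
    intro e he
    rcases Finset.mem_insert.1 he with rfl | he
    · exact e0_mem_V4 hij
    · rcases Finset.mem_union.1 he with h | h
      · exact (Finset.mem_filter.1 h).1
      · exact (Finset.mem_filter.1 h).1
  have hle : ∑ e ∈ insert (e0_V4 i j) (F1 ∪ F2), dK V G P (x e.1) (x e.2) ≤
      ∑ e ∈ EE_V4 H, dK V G P (x e.1) (x e.2) :=
    Finset.sum_le_sum_of_subset_of_nonneg hsub fun e _ _ => hM.nonneg _ (hT.pts _) _ (hT.pts _)
  rw [Finset.sum_insert h0, Finset.sum_union hd, e0_val_V4 (dK V G P) x hsym] at hle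
  have hs : dK V G P (x j) (dl u) = dK V G P (dl u) (x j) := hM.symm _ (hT.pts j) _ pu
  rw [hs] at k2
  linarith

end Pool.Agent.Helper8.GP
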