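import Pool.Agent.Helper8.GP.Var

/-!
# Chapter VAR, module V5 (helper76): the optimal tree avoids the vertices
-/

namespace Pool.Agent.Helper8.GP

open Pool.Agent.Helper18.GP Relation Classical Filter Topology

theorem v5_cut (h2 : stCmp) (h4 : stCost) {N : ℕ} {V : Finset (Fin N)}
    {G : SimpleGraph (Fin N)} {P : Fin N → ℂ} (hM : MetP V G P) {A : Finset (Fin N)} (hA : A ⊆ V)
    {k : ℕ} {H : SimpleGraph (Fin k)} {x : Fin k → (Fin N → ℝ)} (hT : TD V G P A k H x)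
    (hNS : NS V G P A) {i j : Fin k} (hij : H.Adj i j) {u : Fin N} (hu : u ∈ V)
    (hle : dK V G P (x i) (dl u) + dK V G P (dl u) (x j) ≤ dK V G P (x i) (x j))
    (hl1 : ∃ l, Cmp H i j l ∧ (∃ a ∈ A, x l = dl a) ∧ x l ≠ dl u)
    (hl2 : ∃ l, Cmp H j i l ∧ (∃ a ∈ A, x l = dl a) ∧ x l ≠ dl u) : False := by
  have hc := h4 N V G P hM A hA k H x hT i j hij u hu
  obtain ⟨c1, c2, -⟩ := h2 k H hT.tree i j hij
  have hns := hNS u hu
    (A.filter fun a => a ≠ u ∧ ∃ l, Cmp H i j l ∧ x l = dl a)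
    (A.filter fun a => a ≠ u ∧ ∃ l, Cmp H j i l ∧ x l = dl a) ?_ ?_ ?_ ?_
  · have := hT.len
    linarith
  · obtain ⟨l, hl, ⟨a, ha, hla⟩, hlu⟩ := hl1
    refine ⟨a, ?_⟩
    rw [Finset.mem_filter]
    refine ⟨ha, ?_, l, hl, hla⟩
    rintro rfl
    exact hlu hla
  · obtain ⟨l, hl, ⟨a, ha, hla⟩, hlu⟩ := hl2
    refine ⟨a, ?_⟩
    rw [Finset.mem_filter]
    refine ⟨ha, ?_, l, hl, hla⟩
    rintro rfl
    exact hlu hla
  · rw [Finset.disjoint_left]
    intro a h1 h2
    rw [Finset.mem_filter] at h1 h2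
    obtain ⟨-, -, l, hl, hla⟩ := h1
    obtain ⟨-, -, l', hl', hla'⟩ := h2
    have : l = l' := hT.inj (hla.trans hla'.symm)
    subst this
    exact c2 l hl hl'
  · ext a
    rw [Finset.mem_union, Finset.mem_filter, Finset.mem_filter, Finset.mem_erase]
    constructor
    · rintro (⟨ha, hau, -⟩ | ⟨ha, hau, -⟩)
      · exact ⟨hau, ha⟩
      · exact ⟨hau, ha⟩
    · rintro ⟨hau, ha⟩
      obtain ⟨l, hl⟩ := hT.act a ha
      rcases c1 l with h | h
      · exact Or.inl ⟨ha, hau, l, h, hl⟩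
      · exact Or.inr ⟨ha, hau, l, h, hl⟩

theorem m_Avo (h2 : stCmp) (h3 : stLeaf) (h4 : stCost) : stAvo := by
  intro N V G P hM A hA k H x hT hNS
  have hQ : ∀ i, ¬ (∃ a ∈ A, x i = dl a) → 3 ≤ dg H i := fun i hi =>
    hT.deg i fun a ha he => hi ⟨a, ha, he⟩
  have L := h3 k H hT.tree (fun l => ∃ a ∈ A, x l = dl a) hQ
  have leaf1 : ∀ i, ∀ u ∈ V, x i = dl u → ∀ j l, H.Adj i j → H.Adj i l → j = l := by
    intro i u hu hxi j l hij hil
    by_contra hjl
    have hd : 2 ≤ dg H i := by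
      unfold dg
      have hsub : ({j, l} : Finset (Fin k)) ⊆ Finset.univ.filter fun m => H.Adj i m := by
        intro m hm
        rw [Finset.mem_insert, Finset.mem_singleton] at hm
        rw [Finset.mem_filter]
        rcases hm with rfl | rfl
        · exact ⟨Finset.mem_univ _, hij⟩
        · exact ⟨Finset.mem_univ _, hil⟩
      have := Finset.card_le_card hsub
      rwa [Finset.card_pair hjl] at this
    refine v5_cut h2 h4 hM hA hT hNS hij hu ?_ ?_ ?_
    · have h0 : dK V G P (x i) (dl u) = 0 := by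
        rw [hxi]; exact hM.self _ (dl_mem G hu)
      rw [h0, hxi, zero_add]
    · obtain ⟨m, hm1, hm2, hm3⟩ := L i j hij i (Or.inr hd)
      refine ⟨m, hm1, hm2, fun e => hm3 (hT.inj (e.trans hxi.symm))⟩
    · obtain ⟨m, hm1, hm2, hm3⟩ := L j i hij.symm i (Or.inl hij.ne)
      refine ⟨m, hm1, hm2, fun e => hm3 (hT.inj (e.trans hxi.symm))⟩
  constructor
  · intro i j hij u hu hui huj
    by_contra hcon
    have hle := not_lt.1 hcon
    by_cases hm : ∃ m, x m = dl u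
    · obtain ⟨m, hm⟩ := hm
      have hmi : m ≠ i := by rintro rfl; exact hui hm.symm
      have hmj : m ≠ j := by rintro rfl; exact huj hm.symm
      refine v5_cut h2 h4 hM hA hT hNS hij hu hle ?_ ?_
      · obtain ⟨l, hl1, hl2, hl3⟩ := L i j hij m (Or.inl hmi)
        exact ⟨l, hl1, hl2, fun e => hl3 (hT.inj (e.trans hm.symm))⟩
      · obtain ⟨l, hl1, hl2, hl3⟩ := L j i hij.symm m (Or.inl hmj)
        exact ⟨l, hl1, hl2, fun e => hl3 (hT.inj (e.trans hm.symm))⟩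
    · refine v5_cut h2 h4 hM hA hT hNS hij hu hle ?_ ?_
      · obtain ⟨l, hl1, hl2, hl3⟩ := L i j hij j (Or.inl hij.ne')
        exact ⟨l, hl1, hl2, fun e => hm ⟨l, e⟩⟩
      · obtain ⟨l, hl1, hl2, hl3⟩ := L j i hij.symm i (Or.inl hij.ne)
        exact ⟨l, hl1, hl2, fun e => hm ⟨l, e⟩⟩
  · intro i u hu hxi
    refine ⟨?_, leaf1 i u hu hxi⟩
    by_contra huA
    have h3' : 3 ≤ dg H i := hT.deg i fun a ha he =>
      huA (by rw [dl_inj (hxi.symm.trans he)]; exact ha)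
    have h1 : dg H i ≤ 1 := by
      unfold dg
      rw [Finset.card_le_one]
      intro a ha b hb
      rw [Finset.mem_filter] at ha hb
      exact leaf1 i u hu hxi a b ha.2 hb.2
    omega

end Pool.Agent.Helper8.GP
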