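import Pool.Agent.Helper8.GP.M_V4

/-!
# Gilbert-Pollak, chapter VAR, module V6 (helper40): exchange at a node
-/

set_option autoImplicit false

namespace Pool.Agent.Helper8.GP

open Pool.Agent.Helper18.GP Relation Classical Filter Topology

private theorem e0_inj_V6 {k : ℕ} {a b i j : Fin k} (h : e0_V4 a b = e0_V4 i j) :
    (a = i ∧ b = j) ∨ (a = j ∧ b = i) := by
  unfold e0_V4 at h
  split_ifs at h <;> simp only [Prod.mk.injEq] at h <;> tauto

/-- **V6**: exchange at a node -/
theorem m_Exch (h1 : stUp) : stExch := by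
  intro N V G P hM A hA k H x hT i j l hij hil hjl z hz
  have hsym : ∀ a b, dK V G P (x a) (x b) = dK V G P (x b) (x a) :=
    fun a b => hM.symm _ (hT.pts a) _ (hT.pts b)
  have hne : e0_V4 i j ≠ e0_V4 i l := by
    intro h
    rcases e0_inj_V6 h with h | h
    · exact hjl h.2
    · exact hil.ne h.1
  set F := ((EE_V4 H).erase (e0_V4 i j)).erase (e0_V4 i l) with hF
  let y : Option (Fin k) → (Fin N → ℝ) := fun o => match o with
    | none => z
    | some l => x l
  have hy : ∀ o, y o ∈ Pts V G := by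
    intro o
    cases o with
    | none => exact hz
    | some l => exact hT.pts l
  let S : Finset (Option (Fin k) × Option (Fin k)) :=
    insert (some i, none) (insert (none, some j) (insert (none, some l) (im_V4 F)))
  have q1 : EqvGen (fun p q => (p, q) ∈ S) (some i) none :=
    EqvGen.rel _ _ (Finset.mem_insert_self _ _)
  have q2 : EqvGen (fun p q => (p, q) ∈ S) none (some j) :=
    EqvGen.rel _ _ (Finset.mem_insert_of_mem (Finset.mem_insert_self _ _))
  have q3 : EqvGen (fun p q => (p, q) ∈ S) none (some l) :=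
    EqvGen.rel _ _ (Finset.mem_insert_of_mem (Finset.mem_insert_of_mem
      (Finset.mem_insert_self _ _)))
  have q4 : EqvGen (fun p q => (p, q) ∈ S) (some i) (some j) := EqvGen.trans _ _ _ q1 q2
  have q5 : EqvGen (fun p q => (p, q) ∈ S) (some i) (some l) := EqvGen.trans _ _ _ q1 q3
  have hstep : ∀ a b : Fin k, H.Adj a b →
      EqvGen (fun p q => (p, q) ∈ S) (some a) (some b) := by
    intro a b hab
    by_cases e1 : e0_V4 a b = e0_V4 i j
    · rcases e0_inj_V6 e1 with ⟨rfl, rfl⟩ | ⟨rfl, rfl⟩
      · exact q4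
      · exact EqvGen.symm _ _ q4
    · by_cases e2 : e0_V4 a b = e0_V4 i l
      · rcases e0_inj_V6 e2 with ⟨rfl, rfl⟩ | ⟨rfl, rfl⟩
        · exact q5
        · exact EqvGen.symm _ _ q5
      · have hmem : e0_V4 a b ∈ F :=
          Finset.mem_erase.2 ⟨e2, Finset.mem_erase.2 ⟨e1, e0_mem_V4 hab⟩⟩
        rcases e0_of_mem_V4 (a := a) (b := b) with e | e
        · rw [e] at hmem
          exact EqvGen.rel _ _ (Finset.mem_insert_of_mem (Finset.mem_insert_of_mem
            (Finset.mem_insert_of_mem (mem_im_V4.2 hmem))))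
        · rw [e] at hmem
          exact EqvGen.symm _ _ (EqvGen.rel _ _ (Finset.mem_insert_of_mem
            (Finset.mem_insert_of_mem (Finset.mem_insert_of_mem (mem_im_V4.2 hmem)))))
  have hwalk : ∀ a b : Fin k, H.Walk a b →
      EqvGen (fun p q => (p, q) ∈ S) (some a) (some b) := by
    intro a b w
    induction w with
    | nil => exact EqvGen.refl _
    | cons h w ih => exact EqvGen.trans _ _ _ (hstep _ _ h) ih
  have key := h1 N V G P hM (Option (Fin k)) S y hy A (by
    intro a ha b hb
    obtain ⟨n, hn⟩ := hT.act a ha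
    obtain ⟨m, hm⟩ := hT.act b hb
    obtain ⟨w⟩ := hT.tree.1.preconnected n m
    exact ⟨some n, some m, hn, hm, hwalk n m w⟩)
  have n1 : ((some i, none) : Option (Fin k) × Option (Fin k)) ∉
      insert (none, some j) (insert (none, some l) (im_V4 F)) := by
    rw [Finset.mem_insert, Finset.mem_insert, not_or, not_or]
    refine ⟨?_, ?_, (not_mem_im_V4 _).1⟩ <;> simp
  have n2 : ((none, some j) : Option (Fin k) × Option (Fin k)) ∉
      insert (none, some l) (im_V4 F) := by
    rw [Finset.mem_insert, not_or]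
    refine ⟨?_, (not_mem_im_V4 _).2⟩
    simp only [Prod.mk.injEq, Option.some.injEq, true_and]
    exact hjl
  have hsum : ∑ e ∈ S, dK V G P (y e.1) (y e.2) = dK V G P (x i) z + (dK V G P z (x j) +
      (dK V G P z (x l) + ∑ e ∈ F, dK V G P (x e.1) (x e.2))) := by
    show ∑ e ∈ insert (some i, none) (insert (none, some j) (insert (none, some l) (im_V4 F))),
      dK V G P (y e.1) (y e.2) = _
    rw [Finset.sum_insert n1, Finset.sum_insert n2, Finset.sum_insert (not_mem_im_V4 _).2,
      sum_im_V4]
  have hall : ∑ e ∈ EE_V4 H, dK V G P (x e.1) (x e.2) = dK V G P (x i) (x j) +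
      (dK V G P (x i) (x l) + ∑ e ∈ F, dK V G P (x e.1) (x e.2)) := by
    rw [← Finset.add_sum_erase (EE_V4 H) _ (e0_mem_V4 hij),
      ← Finset.add_sum_erase ((EE_V4 H).erase (e0_V4 i j)) _
        (Finset.mem_erase.2 ⟨hne.symm, e0_mem_V4 hil⟩),
      e0_val_V4 (dK V G P) x hsym, e0_val_V4 (dK V G P) x hsym]
  have hlen := hT.len
  rw [tlen_EE_V4 (dK V G P) H x hsym, hall] at hlen
  rw [hsum, ← hlen] at key
  linarith

end Pool.Agent.Helper8.GP
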