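import Pool.Agent.Helper8.GP.Var

namespace Pool.Agent.Helper8.GP

open Pool.Agent.Helper18.GP Relation Classical Filter Topology

variable {N : ℕ}

private theorem Ccw_val_V7 (a b c : Fin N) : Ccw a b c ↔ (a.val < b.val ∧ b.val < c.val) ∨
    (b.val < c.val ∧ c.val < a.val) ∨ (c.val < a.val ∧ a.val < b.val) := by
  have ha := a.isLt; have hb := b.isLt; have hc := c.isLt
  unfold Ccw cyc
  split_ifs <;> omega

private theorem or_V7 {a b v : Fin N} (h1 : v ≠ a) (h2 : v ≠ b) (h3 : a ≠ b) :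
    Ccw a v b ∨ Ccw b v a := by
  simp only [Ccw_val_V7, ne_eq, Fin.ext_iff] at *; omega

private theorem four_V7 {a b c d : Fin N} (h1 : a ≠ b) (h2 : a ≠ c) (h3 : a ≠ d) (h4 : b ≠ c)
    (h5 : b ≠ d) (h6 : c ≠ d) : Crs a b c d ∨ Crs a c b d ∨ Crs a d b c := by
  have p1 := cyc_pos.2 h1.symm
  have p2 := cyc_pos.2 h2.symm
  have p3 := cyc_pos.2 h3.symm
  have q1 : cyc a b ≠ cyc a c := fun h => h4 (cyc_inj h)
  have q2 : cyc a b ≠ cyc a d := fun h => h5 (cyc_inj h)
  have q3 : cyc a c ≠ cyc a d := fun h => h6 (cyc_inj h)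
  unfold Crs Ccw
  omega

theorem m_Dich (hA : stApex) : stDich := by
  intro N V G hT hV x hx hxu
  obtain ⟨s, hs⟩ : ∃ s : Finset (Fin N), ∀ v, v ∈ s ↔ x v ≠ 0 :=
    ⟨Finset.univ.filter fun v => x v ≠ 0, fun v => by simp⟩
  have hsV : ∀ v ∈ s, v ∈ V := fun v hv => hx.2.2.1 v ((hs v).1 hv)
  have hadj : ∀ a ∈ s, ∀ b ∈ s, a ≠ b → G.Adj a b :=
    fun a ha b hb hab => hx.2.2.2 a b ((hs a).1 ha) ((hs b).1 hb) hab
  have h0 : s.card ≠ 0 := by
    intro h
    rw [Finset.card_eq_zero] at h
    have hz : ∀ v, x v = 0 := by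
      intro v
      by_contra hv
      have := (hs v).2 hv
      rw [h] at this
      simp at this
    have := hx.2.1
    simp [hz] at this
  have h1 : s.card ≠ 1 := by
    intro h
    obtain ⟨u, hu⟩ := Finset.card_eq_one.1 h
    have hz : ∀ v, v ≠ u → x v = 0 := by
      intro v hv
      by_contra hv'
      have := (hs v).2 hv'
      rw [hu, Finset.mem_singleton] at this
      exact hv this
    have hxu1 : x u = 1 := by
      rw [← hx.2.1]
      exact (Finset.sum_eq_single u (fun v _ hv => hz v hv) (fun h => absurd (Finset.mem_univ u) h)).symm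
    refine hxu u (hsV u (by rw [hu]; simp)) ?_
    funext v
    unfold dl
    by_cases hv : v = u
    · rw [hv, Pi.single_eq_same, hxu1]
    · rw [Pi.single_eq_of_ne hv, hz v hv]
  have h4 : s.card < 4 := by
    by_contra hcon
    push Not at hcon
    obtain ⟨a, ha⟩ := Finset.card_pos.1 (by omega : 0 < s.card)
    have hc : 2 < (s.erase a).card := by
      rw [Finset.card_erase_of_mem ha]; omega
    obtain ⟨b, hb, c, hc, d, hd, hbc, hbd, hcd⟩ := Finset.two_lt_card.1 hc
    rw [Finset.mem_erase] at hb hc hd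
    rcases four_V7 (Ne.symm hb.1) (Ne.symm hc.1) (Ne.symm hd.1) hbc hbd hcd with h | h | h
    · exact hT.nc a (hsV a ha) b (hsV b hb.2) c (hsV c hc.2) d (hsV d hd.2)
        (hadj a ha b hb.2 (Ne.symm hb.1)) (hadj c hc.2 d hd.2 hcd) h
    · exact hT.nc a (hsV a ha) c (hsV c hc.2) b (hsV b hb.2) d (hsV d hd.2)
        (hadj a ha c hc.2 (Ne.symm hc.1)) (hadj b hb.2 d hd.2 hbd) h
    · exact hT.nc a (hsV a ha) d (hsV d hd.2) b (hsV b hb.2) c (hsV c hc.2)
        (hadj a ha d hd.2 (Ne.symm hd.1)) (hadj b hb.2 c hc.2 hbc) h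
  have h23 : s.card = 2 ∨ s.card = 3 := by omega
  rcases h23 with h2 | h3
  · obtain ⟨a, b, hab, hsab⟩ := Finset.card_eq_two.1 h2
    have hsup : ∀ v, x v ≠ 0 ↔ (v = a ∨ v = b) := by
      intro v
      rw [← hs v, hsab, Finset.mem_insert, Finset.mem_singleton]
    have has : a ∈ s := by rw [hsab]; simp
    have hbs : b ∈ s := by rw [hsab]; simp
    have haV := hsV a has
    have hbV := hsV b hbs
    have hGab := hadj a has b hbs hab
    -- the one-sided case
    have side : ∀ a b : Fin N, a ≠ b → a ∈ V → b ∈ V → G.Adj a b →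
        (∀ v, x v ≠ 0 ↔ (v = a ∨ v = b)) → (¬ ∃ w ∈ V, Ccw b w a) → Bnd V G x := by
      intro a b hab haV hbV hGab hsup hno
      have hex : ∃ v ∈ V, Ccw a v b := by
        have : ∃ v ∈ V, v ≠ a ∧ v ≠ b := by
          by_contra hcon
          push Not at hcon
          have hsub : V ⊆ {a, b} := by
            intro v hv
            rw [Finset.mem_insert, Finset.mem_singleton]
            by_cases hva : v = a
            · exact Or.inl hva
            · exact Or.inr (hcon v hv hva)
          have h5 := Finset.card_le_card hsub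
          have h6 := Finset.card_le_two (a := a) (b := b)
          omega
        obtain ⟨v, hv, hva, hvb⟩ := this
        rcases or_V7 hva hvb hab with h | h
        · exact ⟨v, hv, h⟩
        · exact absurd ⟨v, hv, h⟩ hno
      obtain ⟨c, ⟨hcV, hc1, hc2, hc3⟩, huniq⟩ := hA N V G hT a haV b hbV hGab hex
      refine ⟨a, haV, b, hbV, c, hcV, hc1, hGab, hc2, hc3, hsup, ?_⟩
      intro z hz hsh v hv
      by_cases hva : v = a
      · exact Or.inl hva
      · by_cases hvb : v = b
        · exact Or.inr (Or.inl hvb)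
        · right; right
          have hvV := hz.2.2.1 v hv
          have k1 : G.Adj a v := hsh a v (Or.inl ((hsup a).2 (Or.inl rfl))) (Or.inr hv)
            (Ne.symm hva)
          have k2 : G.Adj v b := hsh v b (Or.inr hv) (Or.inl ((hsup b).2 (Or.inr rfl))) hvb
          rcases or_V7 hva hvb hab with h | h
          · exact huniq v ⟨hvV, h, k1, k2⟩
          · exact absurd ⟨v, hvV, h⟩ hno
    by_cases p2 : ∃ w ∈ V, Ccw b w a
    · by_cases p1 : ∃ v ∈ V, Ccw a v b
      · obtain ⟨c, ⟨hcV, hc1, hc2, hc3⟩, _⟩ := hA N V G hT a haV b hbV hGab p1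
        obtain ⟨d, ⟨hdV, hd1, hd2, hd3⟩, _⟩ := hA N V G hT b hbV a haV hGab.symm p2
        exact Or.inl (Or.inr ⟨a, haV, b, hbV, c, hcV, d, hdV, hc1, hd1, hGab, hc2, hc3, hd2, hd3,
          hsup⟩)
      · exact Or.inr (side b a hab.symm hbV haV hGab.symm (fun v => by rw [hsup v]; tauto) p1)
    · exact Or.inr (side a b hab haV hbV hGab hsup p2)
  · obtain ⟨a, b, c, hab, hac, hbc, hsabc⟩ := Finset.card_eq_three.1 h3
    have hsup : ∀ v, x v ≠ 0 ↔ (v = a ∨ v = b ∨ v = c) := by
      intro v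
      rw [← hs v, hsabc, Finset.mem_insert, Finset.mem_insert, Finset.mem_singleton]
    have has : a ∈ s := by rw [hsabc]; simp
    have hbs : b ∈ s := by rw [hsabc]; simp
    have hcs : c ∈ s := by rw [hsabc]; simp
    left; left
    have : Ccw a b c ∨ Ccw a c b := by
      simp only [Ccw_val_V7, ne_eq, Fin.ext_iff] at *; omega
    rcases this with h | h
    · exact ⟨a, hsV a has, b, hsV b hbs, c, hsV c hcs, h, hadj a has b hbs hab,
        hadj b hbs c hcs hbc, hadj a has c hcs hac, hsup⟩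
    · exact ⟨a, hsV a has, c, hsV c hcs, b, hsV b hbs, h, hadj a has c hcs hac,
        hadj c hcs b hbs hbc.symm, hadj a has b hbs hab, fun v => by rw [hsup v]; tauto⟩

end Pool.Agent.Helper8.GP
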