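import Pool.Agent.Helper8.GP.Var

/-!
# Gilbert-Pollak, chapter VAR, module V8 (helper40): local surjectivity at inner points
-/

set_option autoImplicit false

namespace Pool.Agent.Helper8.GP

open Pool.Agent.Helper18.GP Relation Classical Filter Topology

variable {N : ℕ}

/-- twice the area of the triangle -/
private noncomputable def DD (a b c : Fin N) (p : (Fin N → ℂ) × ℂ) : ℝ :=
  crs (p.1 b - p.1 a) (p.1 c - p.1 a)

/-- barycentric coordinate of `a` in the triangle `a b c` -/
private noncomputable def AA (a b c : Fin N) (p : (Fin N → ℂ) × ℂ) : ℝ :=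
  crs (p.1 b - p.2) (p.1 c - p.2) / DD a b c p

/-- the point of the triangle `a b c` above `p.2` -/
private noncomputable def BB (a b c : Fin N) (p : (Fin N → ℂ) × ℂ) : Fin N → ℝ :=
  fun v => AA a b c p * dl a v + AA b c a p * dl b v + AA c a b p * dl c v

private theorem DD_rot (a b c : Fin N) (p : (Fin N → ℂ) × ℂ) : DD b c a p = DD a b c p := by
  unfold DD crs; simp only [Complex.sub_re, Complex.sub_im]; ring

private theorem cont_crs {X : Type*} [TopologicalSpace X] {f g : X → ℂ} (hf : Continuous f)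
    (hg : Continuous g) : Continuous fun x => crs (f x) (g x) := by
  unfold crs
  exact ((Complex.continuous_re.comp hf).mul (Complex.continuous_im.comp hg)).sub
    ((Complex.continuous_im.comp hf).mul (Complex.continuous_re.comp hg))

private theorem cont_ev (a : Fin N) : Continuous fun p : (Fin N → ℂ) × ℂ => p.1 a :=
  (continuous_apply a).comp continuous_fst

private theorem cont_DD (a b c : Fin N) : Continuous (DD a b c) :=
  cont_crs ((cont_ev b).sub (cont_ev a)) ((cont_ev c).sub (cont_ev a))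

private theorem cont_AA (a b c : Fin N) {p : (Fin N → ℂ) × ℂ} (h : DD a b c p ≠ 0) :
    ContinuousAt (AA a b c) p :=
  (cont_crs ((cont_ev b).sub continuous_snd)
    ((cont_ev c).sub continuous_snd)).continuousAt.div (cont_DD a b c).continuousAt h

private theorem cont_BB (a b c : Fin N) {p : (Fin N → ℂ) × ℂ} (h : DD a b c p ≠ 0) :
    ContinuousAt (BB a b c) p := by
  have h1 := cont_AA a b c h
  have h2 := cont_AA b c a (p := p) (by rw [DD_rot]; exact h)
  have h3 := cont_AA c a b (p := p) (by rw [DD_rot, DD_rot]; exact h)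
  refine continuousAt_pi.2 fun v => ?_
  exact ((h1.mul continuousAt_const).add (h2.mul continuousAt_const)).add
    (h3.mul continuousAt_const)

private theorem sum_three {M : Type*} [AddCommMonoid M] {a b c : Fin N} (hab : a ≠ b)
    (hac : a ≠ c) (hbc : b ≠ c) (f : Fin N → M)
    (h : ∀ v, ¬ (v = a ∨ v = b ∨ v = c) → f v = 0) : ∑ v, f v = f a + f b + f c := by
  rw [← Finset.sum_subset (Finset.subset_univ {a, b, c})]
  · rw [Finset.sum_insert, Finset.sum_insert, Finset.sum_singleton, add_assoc]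
    · rw [Finset.mem_singleton]; exact hbc
    · rw [Finset.mem_insert, Finset.mem_singleton, not_or]; exact ⟨hab, hac⟩
  · intro v _ hv
    rw [Finset.mem_insert, Finset.mem_insert, Finset.mem_singleton] at hv
    exact h v hv

private theorem dl_app (a v : Fin N) : dl a v = if v = a then (1 : ℝ) else 0 := by
  unfold dl; rw [Pi.single_apply]

private theorem BB_supp {a b c : Fin N} {p : (Fin N → ℂ) × ℂ} {v : Fin N}
    (h : ¬ (v = a ∨ v = b ∨ v = c)) : BB a b c p v = 0 := by
  rw [not_or, not_or] at h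
  unfold BB
  rw [dl_app, dl_app, dl_app, if_neg h.1, if_neg h.2.1, if_neg h.2.2]; ring

private theorem BB_a {a b c : Fin N} (hab : a ≠ b) (hac : a ≠ c) (p : (Fin N → ℂ) × ℂ) :
    BB a b c p a = AA a b c p := by
  unfold BB
  rw [dl_app, dl_app, dl_app, if_pos rfl, if_neg hab, if_neg hac]; ring

private theorem BB_b {a b c : Fin N} (hab : a ≠ b) (hbc : b ≠ c) (p : (Fin N → ℂ) × ℂ) :
    BB a b c p b = AA b c a p := by
  unfold BB
  rw [dl_app, dl_app, dl_app, if_pos rfl, if_neg hab.symm, if_neg hbc]; ring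

private theorem BB_c {a b c : Fin N} (hac : a ≠ c) (hbc : b ≠ c) (p : (Fin N → ℂ) × ℂ) :
    BB a b c p c = AA c a b p := by
  unfold BB
  rw [dl_app, dl_app, dl_app, if_pos rfl, if_neg hac.symm, if_neg hbc.symm]; ring

/-- the coordinates of a point -/
private theorem AA_eq {P : Fin N → ℂ} {a b c : Fin N} {x y z : ℝ} {q : ℂ}
    (hD : crs (P b - P a) (P c - P a) ≠ 0) (h1 : x + y + z = 1)
    (hq : q = (x : ℂ) * P a + (y : ℂ) * P b + (z : ℂ) * P c) : AA a b c (P, q) = x := by
  have hx : x = 1 - y - z := by linarith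
  have hre : q.re = x * (P a).re + y * (P b).re + z * (P c).re := by rw [hq]; simp
  have him : q.im = x * (P a).im + y * (P b).im + z * (P c).im := by rw [hq]; simp
  show crs (P b - q) (P c - q) / crs (P b - P a) (P c - P a) = x
  rw [div_eq_iff hD]
  unfold crs
  simp only [Complex.sub_re, Complex.sub_im]
  rw [hre, him, hx]; ring

private theorem BB_eq {V : Finset (Fin N)} {G : SimpleGraph (Fin N)} {P : Fin N → ℂ}
    {x : Fin N → ℝ} (hx : x ∈ Pts V G) {a b c : Fin N} (hab : a ≠ b) (hac : a ≠ c) (hbc : b ≠ c)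
    (hs : ∀ v, x v ≠ 0 → v = a ∨ v = b ∨ v = c) (hD : crs (P b - P a) (P c - P a) ≠ 0) :
    BB a b c (P, dev P x) = x ∧ AA a b c (P, dev P x) = x a ∧ AA b c a (P, dev P x) = x b ∧
      AA c a b (P, dev P x) = x c := by
  have h1 : x a + x b + x c = 1 := by
    rw [← sum_three hab hac hbc x (fun v hv => by by_contra h; exact hv (hs v h))]
    exact hx.2.1
  have hq : dev P x = (x a : ℂ) * P a + (x b : ℂ) * P b + (x c : ℂ) * P c := by
    unfold dev
    refine sum_three hab hac hbc (fun v => (x v : ℂ) * P v) (fun v hv => ?_)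
    have : x v = 0 := by by_contra h; exact hv (hs v h)
    simp only [this, Complex.ofReal_zero, zero_mul]
  have hD2 : crs (P c - P b) (P a - P b) ≠ 0 := by
    have : crs (P c - P b) (P a - P b) = crs (P b - P a) (P c - P a) := DD_rot a b c (P, 0)
    rw [this]; exact hD
  have hD3 : crs (P a - P c) (P b - P c) ≠ 0 := by
    have : crs (P a - P c) (P b - P c) = crs (P c - P b) (P a - P b) := DD_rot b c a (P, 0)
    rw [this]; exact hD2
  have e1 : AA a b c (P, dev P x) = x a := AA_eq hD h1 hq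
  have e2 : AA b c a (P, dev P x) = x b :=
    AA_eq hD2 (by linarith : x b + x c + x a = 1) (by rw [hq]; ring)
  have e3 : AA c a b (P, dev P x) = x c :=
    AA_eq hD3 (by linarith : x c + x a + x b = 1) (by rw [hq]; ring)
  refine ⟨?_, e1, e2, e3⟩
  funext v
  by_cases hv : v = a ∨ v = b ∨ v = c
  · rcases hv with rfl | rfl | rfl
    · rw [BB_a hab hac, e1]
    · rw [BB_b hab hbc, e2]
    · rw [BB_c hac hbc, e3]
  · rw [BB_supp hv]
    by_contra h
    exact hv (hs v fun h' => h h'.symm)

private theorem BB_mem {V : Finset (Fin N)} {G : SimpleGraph (Fin N)} {a b c : Fin N}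
    (ha : a ∈ V) (hb : b ∈ V) (hc : c ∈ V) (gab : G.Adj a b) (gbc : G.Adj b c)
    (gac : G.Adj a c) {p : (Fin N → ℂ) × ℂ} (hD : DD a b c p ≠ 0) (h1 : 0 ≤ AA a b c p)
    (h2 : 0 ≤ AA b c a p) (h3 : 0 ≤ AA c a b p) :
    BB a b c p ∈ Pts V G ∧ dev p.1 (BB a b c p) = p.2 := by
  have hab := gab.ne
  have hbc := gbc.ne
  have hac := gac.ne
  have hsum : AA a b c p + AA b c a p + AA c a b p = 1 := by
    unfold AA
    rw [DD_rot b c a, DD_rot a b c, ← add_div, ← add_div, div_eq_iff hD, one_mul]
    unfold DD crs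
    simp only [Complex.sub_re, Complex.sub_im]; ring
  refine ⟨⟨?_, ?_, ?_, ?_⟩, ?_⟩
  · intro v
    by_cases hv : v = a ∨ v = b ∨ v = c
    · rcases hv with rfl | rfl | rfl
      · rw [BB_a hab hac]; exact h1
      · rw [BB_b hab hbc]; exact h2
      · rw [BB_c hac hbc]; exact h3
    · rw [BB_supp hv]
  · rw [sum_three hab hac hbc _ (fun v hv => BB_supp hv), BB_a hab hac, BB_b hab hbc,
      BB_c hac hbc, hsum]
  · intro v hv
    by_cases h : v = a ∨ v = b ∨ v = c
    · rcases h with rfl | rfl | rfl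
      · exact ha
      · exact hb
      · exact hc
    · exact absurd (BB_supp h) hv
  · intro u v hu hv huv
    have hu' : u = a ∨ u = b ∨ u = c := by by_contra h; exact hu (BB_supp h)
    have hv' : v = a ∨ v = b ∨ v = c := by by_contra h; exact hv (BB_supp h)
    rcases hu' with rfl | rfl | rfl <;> rcases hv' with rfl | rfl | rfl <;>
      first
      | exact absurd rfl huv
      | assumption
      | exact gab.symm
      | exact gbc.symm
      | exact gac.symm
  · unfold dev
    rw [sum_three hab hac hbc (fun v => (BB a b c p v : ℂ) * p.1 v) (fun v hv => by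
      simp only [BB_supp hv, Complex.ofReal_zero, zero_mul]), BB_a hab hac, BB_b hab hbc,
      BB_c hac hbc]
    unfold AA
    rw [DD_rot b c a, DD_rot a b c]
    have hDc : (DD a b c p : ℂ) ≠ 0 := by exact_mod_cast hD
    apply mul_left_cancel₀ hDc
    have e : ∀ r : ℝ, (DD a b c p : ℂ) * ((r / DD a b c p : ℝ) : ℂ) = (r : ℂ) := by
      intro r
      rw [← Complex.ofReal_mul, mul_div_cancel₀ _ hD]
    rw [mul_add, mul_add, ← mul_assoc, ← mul_assoc, ← mul_assoc, e, e, e]
    unfold DD crs
    apply Complex.ext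
    · simp only [Complex.add_re, Complex.mul_re, Complex.sub_re, Complex.sub_im, Complex.ofReal_re,
        Complex.ofReal_im]
      ring
    · simp only [Complex.add_im, Complex.mul_im, Complex.sub_re, Complex.sub_im, Complex.ofReal_re,
        Complex.ofReal_im]
      ring

private theorem AA_pos {a b c : Fin N} {p₀ : (Fin N → ℂ) × ℂ} (hD : DD a b c p₀ ≠ 0)
    (h : 0 < AA a b c p₀) : ∀ᶠ p in 𝓝 p₀, 0 < AA a b c p :=
  (cont_AA a b c hD).eventually (lt_mem_nhds h)

private theorem DD_pos {a b c : Fin N} {p₀ : (Fin N → ℂ) × ℂ} (h : 0 < DD a b c p₀) :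
    ∀ᶠ p in 𝓝 p₀, 0 < DD a b c p :=
  (cont_DD a b c).continuousAt.eventually (lt_mem_nhds h)

/-- **V8**: local surjectivity -/
theorem m_LS : stLS := by
  intro N V G P hSt x hx hI
  have hpos : ∀ v, x v ≠ 0 → 0 < x v := fun v hv => lt_of_le_of_ne (hx.1 v) hv.symm
  rcases hI with ⟨a, ha, b, hb, c, hc, hccw, gab, gbc, gac, hsupp⟩ |
    ⟨a, ha, b, hb, c, hc, d, hd, hacb, hbda, gab, gac, gcb, gbd, gda, hsupp⟩
  · -- inside a triangle
    have hD : 0 < crs (P b - P a) (P c - P a) := hSt a ha b hb c hc hccw gab gbc gac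
    obtain ⟨e0, e1, e2, e3⟩ := BB_eq (P := P) hx gab.ne gac.ne gbc.ne (fun v hv => (hsupp v).1 hv)
      (ne_of_gt hD)
    have hD1 : DD a b c (P, dev P x) ≠ 0 := ne_of_gt hD
    have hD2 : DD b c a (P, dev P x) ≠ 0 := by rw [DD_rot]; exact hD1
    have hD3 : DD c a b (P, dev P x) ≠ 0 := by rw [DD_rot]; exact hD2
    refine ⟨BB a b c, ?_, ?_⟩
    · have := cont_BB a b c hD1
      rw [ContinuousAt, e0] at this
      exact this
    · have p1 := AA_pos hD1 (by rw [e1]; exact hpos a ((hsupp a).2 (Or.inl rfl)))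
      have p2 := AA_pos hD2 (by rw [e2]; exact hpos b ((hsupp b).2 (Or.inr (Or.inl rfl))))
      have p3 := AA_pos hD3 (by rw [e3]; exact hpos c ((hsupp c).2 (Or.inr (Or.inr rfl))))
      have p4 := DD_pos (a := a) (b := b) (c := c) (p₀ := (P, dev P x)) hD
      filter_upwards [p1, p2, p3, p4] with p h1 h2 h3 h4
      exact BB_mem ha hb hc gab gbc gac (ne_of_gt h4) h1.le h2.le h3.le
  · -- inside an edge: triangles `b d a` and `a c b`
    have hD : 0 < crs (P d - P b) (P a - P b) := hSt b hb d hd a ha hbda gbd gda gab.symm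
    have hE : 0 < crs (P c - P a) (P b - P a) := hSt a ha c hc b hb hacb gac gcb gab
    obtain ⟨e0, e1, e2, e3⟩ := BB_eq (P := P) (a := b) (b := d) (c := a) hx gbd.ne gab.ne.symm
      gda.ne (fun v hv => by
        rcases (hsupp v).1 hv with h | h
        · exact Or.inr (Or.inr h)
        · exact Or.inl h) (ne_of_gt hD)
    obtain ⟨f0, f1, f2, f3⟩ := BB_eq (P := P) (a := a) (b := c) (c := b) hx gac.ne gab.ne gcb.ne
      (fun v hv => by
        rcases (hsupp v).1 hv with h | h
        · exact Or.inl h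
        · exact Or.inr (Or.inr h)) (ne_of_gt hE)
    have hD1 : DD b d a (P, dev P x) ≠ 0 := ne_of_gt hD
    have hD2 : DD d a b (P, dev P x) ≠ 0 := by rw [DD_rot]; exact hD1
    have hD3 : DD a b d (P, dev P x) ≠ 0 := by rw [DD_rot]; exact hD2
    have hE1 : DD a c b (P, dev P x) ≠ 0 := ne_of_gt hE
    have hE2 : DD c b a (P, dev P x) ≠ 0 := by rw [DD_rot]; exact hE1
    have hE3 : DD b a c (P, dev P x) ≠ 0 := by rw [DD_rot]; exact hE2
    refine ⟨fun p => if 0 ≤ crs (p.1 a - p.2) (p.1 b - p.2) then BB b d a p else BB a c b p,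
      ?_, ?_⟩
    · have t1 := cont_BB b d a hD1
      rw [ContinuousAt, e0] at t1
      have t2 := cont_BB a c b hE1
      rw [ContinuousAt, f0] at t2
      exact Filter.Tendsto.if' t1 t2
    · have p1 := AA_pos hD1 (by rw [e1]; exact hpos b ((hsupp b).2 (Or.inr rfl)))
      have p3 := AA_pos hD3 (by rw [e3]; exact hpos a ((hsupp a).2 (Or.inl rfl)))
      have p4 := DD_pos (a := b) (b := d) (c := a) (p₀ := (P, dev P x)) hD
      have q1 := AA_pos hE1 (by rw [f1]; exact hpos a ((hsupp a).2 (Or.inl rfl)))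
      have q3 := AA_pos hE3 (by rw [f3]; exact hpos b ((hsupp b).2 (Or.inr rfl)))
      have q4 := DD_pos (a := a) (b := c) (c := b) (p₀ := (P, dev P x)) hE
      filter_upwards [p1, p3, p4, q1, q3, q4] with p h1 h3 h4 k1 k3 k4
      by_cases hs : 0 ≤ crs (p.1 a - p.2) (p.1 b - p.2)
      · simp only [if_pos hs]
        refine BB_mem hb hd ha gbd gda gab.symm (ne_of_gt h4) h1.le ?_ h3.le
        unfold AA
        rw [DD_rot]
        exact div_nonneg hs h4.le
      · simp only [if_neg hs]
        refine BB_mem ha hc hb gac gcb gab (ne_of_gt k4) k1.le ?_ k3.le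
        unfold AA
        rw [DD_rot]
        refine div_nonneg ?_ k4.le
        have : crs (p.1 b - p.2) (p.1 a - p.2) = -crs (p.1 a - p.2) (p.1 b - p.2) := by
          unfold crs; ring
        rw [this]
        linarith

end Pool.Agent.Helper8.GP
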