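import Pool.Agent.Helper8.GP.Var

/-!
# Chapter VAR, module V9: a straight geodesic starts inside a common face
-/

namespace Pool.Agent.Helper8.GP

open Pool.Agent.Helper18.GP Relation Classical Filter Topology

theorem v9_mem {N : ℕ} {V : Finset (Fin N)} {G : SimpleGraph (Fin N)} {P : Fin N → ℂ}
    {x y : Fin N → ℝ} {c : ℝ} (h : Ch V G P x y c) : x ∈ Pts V G := by
  cases h with
  | nil _ hx => exact hx
  | cons _ _ _ _ hx _ _ => exact hx

theorem v9_low {N : ℕ} {V : Finset (Fin N)} {G : SimpleGraph (Fin N)} {P : Fin N → ℂ}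
    {x y : Fin N → ℝ} {c : ℝ} (h : Ch V G P x y c) : ‖dev P x - dev P y‖ ≤ c := by
  induction h with
  | nil x hx => simp
  | cons x y z c hx hs h ih =>
    calc ‖dev P x - dev P z‖ = ‖(dev P x - dev P y) + (dev P y - dev P z)‖ := by ring_nf
      _ ≤ ‖dev P x - dev P y‖ + ‖dev P y - dev P z‖ := norm_add_le _ _
      _ ≤ _ := by linarith

theorem v9_aux {N : ℕ} {V : Finset (Fin N)} {G : SimpleGraph (Fin N)} {P : Fin N → ℂ}
    (M : MetP V G P) (hpos : ∀ x ∈ Pts V G, ∀ y ∈ Pts V G, dK V G P x y = 0 → x = y)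
    {x y : Fin N → ℝ} {c : ℝ} (h : Ch V G P x y c) (hc : c = ‖dev P x - dev P y‖) (hne : x ≠ y) :
    ∃ z ∈ Pts V G, Sh G x z ∧ ∃ r : ℝ, 0 < r ∧ dev P z - dev P x = r * (dev P y - dev P x) := by
  induction h with
  | nil x hx => exact absurd rfl hne
  | cons x y z c hx hs h ih =>
    have hy := v9_mem h
    have hlow := v9_low h
    by_cases he : dev P y = dev P x
    · have hxy : x = y := by
        apply hpos x hx y hy
        rw [M.sh x hx y hy hs, he, sub_self, norm_zero]
      subst hxy
      apply ih _ hne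
      rw [sub_self, norm_zero, zero_add] at hc
      exact hc
    · set a := dev P y - dev P x with ha
      set b := dev P z - dev P y with hb
      have ha0 : a ≠ 0 := sub_ne_zero.2 he
      have hab : a + b = dev P z - dev P x := by rw [ha, hb]; ring
      have n1 : ‖dev P x - dev P y‖ = ‖a‖ := by rw [ha, norm_sub_rev]
      have n2 : ‖dev P y - dev P z‖ = ‖b‖ := by rw [hb, norm_sub_rev]
      have n3 : ‖dev P x - dev P z‖ = ‖a + b‖ := by rw [hab, norm_sub_rev]
      have hnorm : ‖a + b‖ = ‖a‖ + ‖b‖ := by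
        apply le_antisymm (norm_add_le _ _)
        rw [n1, n3] at hc
        rw [n2] at hlow
        linarith
      have hab0 : a + b ≠ 0 := by
        rw [← norm_pos_iff, hnorm]
        have := norm_pos_iff.2 ha0
        have := norm_nonneg b
        linarith
      have hray : SameRay ℝ a (a + b) := SameRay.rfl.add_right (sameRay_iff_norm_add.2 hnorm)
      obtain ⟨r₁, r₂, h1, h2, h3⟩ := hray.exists_pos ha0 hab0
      refine ⟨y, hy, hs, r₂ / r₁, div_pos h2 h1, ?_⟩
      rw [← hab, ← ha]
      rw [Complex.real_smul, Complex.real_smul] at h3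
      have h1' : (r₁ : ℂ) ≠ 0 := by exact_mod_cast h1.ne'
      push_cast
      field_simp
      rw [← h3]; ring

theorem m_Dir : stDir := by
  intro N V G P M hpos x hx y hy hxy hne
  exact v9_aux M hpos (M.att x hx y hy) hxy hne

end Pool.Agent.Helper8.GP
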