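import Pool.Agent.Helper8.GP.Final
import Pool.Agent.Helper8.GP.M_V1
import Pool.Agent.Helper8.GP.M_V2
import Pool.Agent.Helper8.GP.M_V3
import Pool.Agent.Helper8.GP.M_V4
import Pool.Agent.Helper8.GP.M_V5
import Pool.Agent.Helper8.GP.M_V6
import Pool.Agent.Helper8.GP.M_V7
import Pool.Agent.Helper8.GP.M_V8
import Pool.Agent.Helper8.GP.M_V9
import Pool.Agent.Helper8.GP.M_V10V11
import Pool.Agent.Helper8.GP.M_V12
import Pool.Agent.Helper8.GP.M_V13
import Pool.Agent.Helper8.GP.M_V14
import Pool.Agent.Helper8.GP.M_V15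
import Pool.Agent.Helper8.GP.M_V16V17
import Pool.Agent.Helper8.GP.M_V18
import Pool.Agent.Helper8.GP.M_V19

/-!
# Chapter VAR: stVar from statements of other chapters
-/

namespace Pool.Agent.Helper8.GP

open Pool.Agent.Helper18.GP Relation Classical Filter Topology

theorem stVar_main (hTree : stTree) (hStr : stStraight) (hCont : stCont) (hMet : stMet)
    (hPos : stPos) (hApex : stApex) : stVar :=
  stVar_of hTree hStr hMet hPos hApex
    (m_Avo m_Cmp (m_Leaf m_Cmp) (m_Cost m_Up m_Cmp))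
    (m_Local (m_Dich hApex) m_Dir
      (m_Pair (m_Exch m_Up) (m_Near m_LS m_Dir) m_ShN (m_StrN hStr hCont) m_Ang hStr)
      m_Three hStr)
    m_Vel m_LenF (m_Move hMet m_Up m_LS (m_StrN hStr hCont))

end Pool.Agent.Helper8.GP
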