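import Pool.Agent.Helper50.GP.St

/-!
# Project GP, module CEN: the row words are central
-/

set_option autoImplicit false

namespace Pool.Agent.Helper8.GP

open Pool.Agent.Helper50.GP

/-- affine maps of the indices are induced by inner automorphisms -/
lemma exists_auto {G : Type} [Group G] (x c s : G) (g : ℕ) (hs : s⁻¹ * c * s = c ^ g)
    (hx : s * x = x * s) (n : ℕ) (i : ℤ) :
    ∃ θ : G →* G, ∀ j : ℤ, θ (xl x c j) = xl x c ((g ^ n : ℕ) * j + i) := by
  have h1 : ∀ n : ℕ, ∃ θ : G →* G, ∀ j : ℤ, θ (xl x c j) = xl x c ((g ^ n : ℕ) * j) := by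
    intro n
    induction n with
    | zero => exact ⟨MonoidHom.id G, fun j => by simp⟩
    | succ n ih =>
      obtain ⟨θ, hθ⟩ := ih
      refine ⟨(MulAut.conj s⁻¹).toMonoidHom.comp θ, fun j => ?_⟩
      rw [MonoidHom.comp_apply, hθ]
      show s⁻¹ * xl x c ((g ^ n : ℕ) * j) * s⁻¹⁻¹ = _
      rw [inv_inv, xl_conj_s x c s g hs hx]
      congr 1
      push_cast
      ring
  obtain ⟨θ, hθ⟩ := h1 n
  refine ⟨(MulAut.conj (c ^ (-i))).toMonoidHom.comp θ, fun j => ?_⟩
  rw [MonoidHom.comp_apply, hθ]
  show c ^ (-i) * xl x c ((g ^ n : ℕ) * j) * (c ^ (-i))⁻¹ = _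
  rw [← zpow_neg, neg_neg, xl_conj_c]

/-- an element which commutes with a product and with all factors but one commutes with it -/
lemma commute_factor {G : Type} [Group G] (h : G) (f : ℕ → G) (r : ℕ) (L : List ℕ) (hL : L.Nodup)
    (hr : r ∈ L) (h1 : ∀ a ∈ L, a ≠ r → Commute h (f a)) (h2 : Commute h (L.map f).prod) :
    Commute h (f r) := by
  induction L with
  | nil => exact absurd hr (by simp)
  | cons a L ih =>
    rw [List.map_cons, List.prod_cons] at h2
    rw [List.nodup_cons] at hL
    by_cases ha : a = r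
    · subst ha
      have h3 : Commute h (L.map f).prod := by
        refine Commute.list_prod_right _ _ fun y hy => ?_
        obtain ⟨b, hb, rfl⟩ := List.mem_map.1 hy
        refine h1 b (List.mem_cons_of_mem _ hb) ?_
        rintro rfl
        exact hL.1 hb
      have h4 : Commute h ((f a * (L.map f).prod) * (L.map f).prod⁻¹) := h2.mul_right h3.inv_right
      rwa [mul_inv_cancel_right] at h4
    · have hr' : r ∈ L := by
        rcases List.mem_cons.1 hr with h | h
        · exact absurd h.symm ha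
        · exact h
      have h3 : Commute h (f a) := h1 a (List.mem_cons_self) ha
      have h4 : Commute h ((f a)⁻¹ * (f a * (L.map f).prod)) := h3.inv_right.mul_right h2
      rw [inv_mul_cancel_left] at h4
      exact ih hL.2 hr' (fun b hb hbr => h1 b (List.mem_cons_of_mem _ hb) hbr) h4

/-- an element which commutes with all letters commutes with the value of a word -/
lemma commute_lift {G ι : Type} [Group G] (h : G) (f : ι → G) (hf : ∀ k, Commute h (f k))
    (ω : FreeGroup ι) : Commute h (FreeGroup.lift f ω) := by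
  induction ω using FreeGroup.induction_on with
  | C1 => simp
  | of k => simpa using hf k
  | inv_of k ih =>
    rw [map_inv]
    exact ih.inv_right
  | mul a b iha ihb =>
    rw [map_mul]
    exact iha.mul_right ihb

theorem hCEN (hPER : StPER) : StCEN := by
  intro p q m g e1 e2 _ hP N ω hN G _ w c hF r hr u v hu j
  obtain ⟨hA, hB, hC⟩ := hPER p q m g e1 e2 hP N ω hN G w c hF
  set x := w ^ (p * (p - 1)) with hx
  have hpp : p.Prime := hP.pp
  have hp0 : 0 < p := hpp.pos
  -- the words of the rows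
  have hW : ∀ a < p - 1, FreeGroup.lift (fun k => xl x c (N a k : ℤ)) (ω a) =
      FreeGroup.lift (fun k : ZMod p => xl x c (((a : ℤ) + 1) + p * (k.val : ℤ))) (ω a) := by
    intro a ha
    congr 2
    funext k
    apply hB
    have := (hN a ha k).2
    push_cast at this ⊢
    exact this
  -- commutation in one row
  have hrow : ∀ j : ℤ, Commute (xl x c (((r : ℤ) + 1) + p * j))
      (FreeGroup.lift (fun k : ZMod p => xl x c (((r : ℤ) + 1) + p * (k.val : ℤ))) (ω r)) := by
    intro j
    rw [← hW r hr]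
    refine commute_factor _ (fun a => FreeGroup.lift (fun k => xl x c (N a k : ℤ)) (ω a)) r
      (List.range (p - 1)) List.nodup_range (List.mem_range.2 hr) ?_ ?_
    · intro a ha har
      rw [List.mem_range] at ha
      show Commute _ (FreeGroup.lift (fun k => xl x c (N a k : ℤ)) (ω a))
      rw [hW a ha]
      refine commute_lift _ _ (fun k => ?_) (ω a)
      refine hC _ _ ?_
      intro hdvd
      have h1 : (p : ℤ) ∣ (r : ℤ) - a := by
        have h2 : (p : ℤ) ∣ p * ((k.val : ℤ) - j) := Dvd.intro _ rfl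
        have h3 := dvd_add hdvd h2
        have h4 : ((r : ℤ) + 1 + p * j - ((a : ℤ) + 1 + p * (k.val : ℤ)) + p * ((k.val : ℤ) - j)) =
            (r : ℤ) - a := by ring
        rwa [h4] at h3
      have h5 : (r : ℤ) - a = 0 := by
        apply Int.eq_zero_of_abs_lt_dvd h1
        rw [abs_lt]
        constructor <;> omega
      apply har
      omega
    · have h1 := hF.r3
      unfold Wd at h1
      rw [← h1]
      exact (hA _).symm
  -- the power of `g`
  have hu0 : ¬ (p : ℤ) ∣ (u.val : ℤ) := by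
    intro hdvd
    have h1 : p ∣ u.val := by exact_mod_cast hdvd
    have h2 := Nat.eq_zero_of_dvd_of_lt h1 (ZMod.val_lt u)
    exact hu ((ZMod.val_eq_zero u).1 h2)
  obtain ⟨n, hn⟩ := hP.prim (u.val : ℤ) hu0
  have hnp : ((g ^ n : ℕ) : ZMod p) = u := by
    have h1 : ((g ^ n : ℕ) : ℤ) ≡ (u.val : ℤ) [ZMOD ((p ^ 2 : ℕ) : ℤ)] := by
      rw [← ZMod.intCast_eq_intCast_iff]
      push_cast
      push_cast at hn
      exact hn
    have h2 : ((g ^ n : ℕ) : ℤ) ≡ (u.val : ℤ) [ZMOD (p : ℤ)] := by
      refine h1.of_dvd ?_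
      push_cast
      exact dvd_pow_self _ (by norm_num)
    rw [← ZMod.intCast_eq_intCast_iff] at h2
    rw [Int.cast_natCast, Int.cast_natCast, ZMod.natCast_val, ZMod.cast_id] at h2
    exact h2
  have hmul : ∀ a b : ℤ, ((a : ℤ) : ZMod p) = ((b : ℤ) : ZMod p) → ∀ t : ℤ,
      xl x c (p * a + t) = xl x c (p * b + t) := by
    intro a b hab t
    apply hB
    rw [ZMod.intCast_eq_intCast_iff] at hab ⊢
    refine Int.ModEq.add_right t ?_
    have h1 := Int.ModEq.mul_left' (c := (p : ℤ)) hab
    have h2 : (((p ^ 2 : ℕ)) : ℤ) = (p : ℤ) * p := by push_cast; ring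
    rw [h2]
    exact h1
  obtain ⟨θ, hθ⟩ := exists_auto x c (w ^ (m * q)) g hF.r1
    (by rw [hx, ← pow_add, ← pow_add, add_comm]) n
    (p * (v.val : ℤ) - (g ^ n : ℕ) * ((r : ℤ) + 1))
  have hθ2 : ∀ k : ℤ, θ (xl x c (((r : ℤ) + 1) + p * k)) =
      xl x c (p * (((g ^ n : ℕ) : ℤ) * k + (v.val : ℤ))) := by
    intro k
    rw [hθ]
    congr 1
    ring
  -- the image of the word
  have hword : θ (FreeGroup.lift (fun k : ZMod p => xl x c (((r : ℤ) + 1) + p * (k.val : ℤ))) (ω r)) =
      FreeGroup.lift (fun k : ZMod p => xl x c (p * ((u * k + v).val : ℤ))) (ω r) := by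
    have h1 : θ.comp (FreeGroup.lift (fun k : ZMod p => xl x c (((r : ℤ) + 1) + p * (k.val : ℤ)))) =
        FreeGroup.lift (fun k : ZMod p => xl x c (p * ((u * k + v).val : ℤ))) := by
      apply FreeGroup.ext_hom
      intro k
      rw [MonoidHom.comp_apply, FreeGroup.lift_apply_of, FreeGroup.lift_apply_of, hθ2]
      have h2 := hmul (((g ^ n : ℕ) : ℤ) * (k.val : ℤ) + (v.val : ℤ)) ((u * k + v).val : ℤ) (by
        push_cast
        rw [ZMod.natCast_val, ZMod.natCast_val, ZMod.natCast_val, ZMod.cast_id, ZMod.cast_id,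
          ZMod.cast_id]
        push_cast at hnp
        rw [hnp]) 0
      rw [add_zero, add_zero] at h2
      exact h2
    rw [← h1]
    rfl
  have hu1 : u * u⁻¹ = 1 := by
    have : Fact p.Prime := ⟨hpp⟩
    exact mul_inv_cancel₀ hu
  have hfin := (hrow (((((j : ZMod p) - v) * u⁻¹ : ZMod p)).val : ℤ)).map θ
  rw [hword, hθ2] at hfin
  have h3 := hmul (((g ^ n : ℕ) : ℤ) * (((((j : ZMod p) - v) * u⁻¹ : ZMod p)).val : ℤ) +
    (v.val : ℤ)) j (by
        push_cast
        rw [ZMod.natCast_val, ZMod.natCast_val, ZMod.cast_id, ZMod.cast_id]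
        push_cast at hnp
        rw [hnp]
        calc u * (((j : ZMod p) - v) * u⁻¹) + v = (u * u⁻¹) * ((j : ZMod p) - v) + v := by ring
          _ = (j : ZMod p) := by rw [hu1]; ring) 0
  rw [add_zero, add_zero] at h3
  rw [h3] at hfin
  exact hfin.symm

end Pool.Agent.Helper8.GP
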