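import Pool.Agent.Helper8.GP.Var

/-!
# Chapter VAR: assembly
-/

namespace Pool.Agent.Helper8.GP

open Pool.Agent.Helper18.GP Relation Classical Filter Topology

theorem crs_zero_right (z : ℂ) : crs z 0 = 0 := by simp [crs]
theorem dt_zero_right (z : ℂ) : dt z 0 = 0 := by simp [dt]
theorem crs_add_right (z w v : ℂ) : crs z (w + v) = crs z w + crs z v := by
  simp [crs]; ring
theorem dt_add_right (z w v : ℂ) : dt z (w + v) = dt z w + dt z v := by
  simp [dt]; ring

theorem T_sum {ι : Type*} (T : ℂ → ℂ → ℝ) (h0 : ∀ z, T z 0 = 0)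
    (ha : ∀ z w v, T z (w + v) = T z w + T z v) (z : ℂ) (s : Finset ι) (f : ι → ℂ) :
    T z (∑ i ∈ s, f i) = ∑ i ∈ s, T z (f i) := by
  induction s using Finset.induction_on with
  | empty => simp [h0]
  | insert a s ha' ih => rw [Finset.sum_insert ha', Finset.sum_insert ha', ha, ih]

/-- regrouping of sums over the leaves -/
theorem sum_leaf {N k : ℕ} {V A : Finset (Fin N)} (T : ℂ → ℂ → ℝ) (h0 : ∀ z, T z 0 = 0)
    (ha : ∀ z w v, T z (w + v) = T z w + T z v) (x : Fin k → (Fin N → ℝ)) (hAV : A ⊆ V)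
    (hQ : ∀ i, ∀ u ∈ V, x i = dl u → u ∈ A) (W : Fin N → ℂ) (S : Fin k → ℂ) :
    ∑ v ∈ A, T (W v) (∑ i, if x i = dl v then S i else 0) =
      ∑ i, if (∃ u ∈ V, x i = dl u) then T (dev W (x i)) (S i) else 0 := by
  have h1 : ∀ v ∈ A, T (W v) (∑ i, if x i = dl v then S i else 0) =
      ∑ i, if x i = dl v then T (W v) (S i) else 0 := by
    intro v _
    rw [T_sum T h0 ha]
    apply Finset.sum_congr rfl
    intro i _
    split_ifs with h
    · rfl
    · exact h0 _
  rw [Finset.sum_congr rfl h1, Finset.sum_comm]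
  apply Finset.sum_congr rfl
  intro i _
  by_cases h : ∃ u ∈ V, x i = dl u
  · rw [if_pos h]
    obtain ⟨u, huV, hu⟩ := h
    have huA := hQ i u huV hu
    rw [Finset.sum_eq_single u]
    · rw [if_pos hu, hu, dev_dl]
    · intro b _ hb
      rw [if_neg]
      intro hb'
      exact hb (dl_inj (hb'.symm.trans hu))
    · intro hn; exact absurd huA hn
  · rw [if_neg h]
    apply Finset.sum_eq_zero
    intro v hv
    rw [if_neg]
    intro hv'
    exact h ⟨v, hAV hv, hv'⟩

theorem S_zero {k : ℕ} {H : SimpleGraph (Fin k)} {p : Fin k → ℂ} {i : Fin k}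
    (h : Tri3 H p i) : (∑ j, if H.Adj i j then un (p i - p j) else 0) = 0 := by
  obtain ⟨j₁, j₂, j₃, h12, h13, h23, hadj, hs⟩ := h
  rw [← Finset.sum_filter]
  have : (Finset.univ.filter fun j => H.Adj i j) = {j₁, j₂, j₃} := by
    ext l
    simp [hadj]
  rw [this, Finset.sum_insert, Finset.sum_insert, Finset.sum_singleton]
  · rw [← add_assoc]; exact hs
  · simp [h23]
  · simp [h12, h13]

theorem tlen_congr {X Y : Type*} {k : ℕ} (H : SimpleGraph (Fin k)) (d : X → X → ℝ)
    (d' : Y → Y → ℝ) (x : Fin k → X) (y : Fin k → Y)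
    (h : ∀ i j, H.Adj i j → d (x i) (x j) = d' (y i) (y j)) : tlen d H x = tlen d' H y := by
  unfold tlen
  congr 1
  apply Finset.sum_congr rfl
  intro e he
  rw [Finset.mem_filter] at he
  exact h _ _ he.2

theorem ne_of_St (hA : stApex) {N : ℕ} {V : Finset (Fin N)} {G : SimpleGraph (Fin N)}
    {P : Fin N → ℂ} (hT : IsTri V G) (hS : St V G P) (h3 : 3 ≤ V.card) :
    ∀ a ∈ V, ∀ b ∈ V, a ≠ b → G.Adj a b → P a ≠ P b := by
  intro a ha b hb hab hadj hP
  obtain ⟨v, hv, hva, hvb⟩ : ∃ v ∈ V, v ≠ a ∧ v ≠ b := by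
    have hc : ({a, b} : Finset (Fin N)).card < V.card :=
      lt_of_le_of_lt Finset.card_le_two h3
    obtain ⟨v, hv, hn⟩ := Finset.exists_mem_notMem_of_card_lt_card hc
    exact ⟨v, hv, fun e => hn (by simp [e]), fun e => hn (by simp [e])⟩
  have h1 : Ccw a v b ∨ Ccw b v a := by
    unfold Ccw
    have hva' : 0 < cyc a v := cyc_pos.2 hva
    have hvb' : 0 < cyc b v := cyc_pos.2 hvb
    rcases Nat.lt_or_ge (cyc a v) (cyc a b) with h | h
    · exact Or.inl ⟨hva', h⟩
    · right
      refine ⟨hvb', ?_⟩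
      have hne : cyc a v ≠ cyc a b := fun e => hvb (cyc_inj e)
      rw [cyc_change_le h, cyc_back (Ne.symm hab)]
      have := cyc_lt a v
      have := cyc_lt a b
      omega
  rcases h1 with h | h
  · obtain ⟨c, ⟨hc, hac, h2, h3⟩, _⟩ := hA N V G hT a ha b hb hadj ⟨v, hv, h⟩
    have h4 := hS a ha c hc b hb hac h2 h3 hadj
    rw [hP] at h4
    simp [crs] at h4
  · obtain ⟨c, ⟨hc, hac, h2, h3⟩, _⟩ := hA N V G hT b hb a ha hadj.symm ⟨v, hv, h⟩
    have h4 := hS b hb c hc a ha hac h2 h3 hadj.symm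
    rw [hP] at h4
    simp [crs] at h4

/-- chapter VAR -/
theorem stVar_of (hTree : stTree) (hStr : stStraight) (hMet : stMet) (hPos : stPos)
    (hApex : stApex) (hAvo : stAvo) (hLocal : stLocal) (hVel : stVel) (hLenF : stLenF)
    (hMove : stMove) : stVar := by
  intro N V G P hT hSt h3 A hAV h2 hNS
  have hM := hMet N V G P hT
  have hAne : A.Nonempty := Finset.card_pos.1 (by omega)
  obtain ⟨k, H, x, htree, hpts, hinj, hact, hdeg, hlen⟩ := hTree N V G P hT hSt h3 A hAV hAne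
  have hTD : TD V G P A k H x := ⟨htree, hpts, hinj, hact, hdeg, hlen⟩
  have hA := hAvo N V G P hM A hAV k H x hTD hNS
  have hne := ne_of_St hApex hT hSt h3
  have hz := hPos N V G P hT hSt hne
  have hloc := hLocal N V G P hT hSt h3 hM hz A hAV k H x hTD hA
  have hst : ∀ i j, H.Adj i j → dK V G P (x i) (x j) = ‖dev P (x i) - dev P (x j)‖ := by
    intro i j hij
    exact hStr N V G P hT hSt (x i) (hpts i) (x j) (hpts j) (hA.edge i j hij)
  have hp : ∀ i j, H.Adj i j → dev P (x i) ≠ dev P (x j) := by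
    intro i j hij he
    have h1 := hst i j hij
    rw [he, sub_self, norm_zero] at h1
    exact hij.ne (hinj (hz _ (hpts i) _ (hpts j) h1))
  have hQ : ∀ i, ∀ u ∈ V, x i = dl u → u ∈ A := fun i u hu h => (hA.leaf i u hu h).1
  refine ⟨fun v => ∑ i, if x i = dl v then
    (∑ j, if H.Adj i j then un (dev P (x i) - dev P (x j)) else 0) else 0, ?_⟩
  intro W hW
  rw [sum_leaf crs crs_zero_right crs_add_right x hAV hQ] at hW
  obtain ⟨δ, hδ1, hδ2⟩ := hVel k H (fun i => dev P (x i)) (fun i => ∃ u ∈ V, x i = dl u)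
    htree.connected.preconnected hp
    (by
      rintro i ⟨u, hu, hxu⟩
      exact (hA.leaf i u hu hxu).2)
    (by
      intro i hi
      push Not at hi
      exact (hloc i hi).2)
    (fun i => dev W (x i)) (by convert hW)
  have hW' : ∑ p ∈ A, dt (W p) (∑ i, if x i = dl p then
      (∑ j, if H.Adj i j then un (dev P (x i) - dev P (x j)) else 0) else 0) =
      ∑ i, dt (δ i) (∑ j, if H.Adj i j then un (dev P (x i) - dev P (x j)) else 0) := by
    rw [sum_leaf dt dt_zero_right dt_add_right x hAV hQ]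
    apply Finset.sum_congr rfl
    intro i _
    split_ifs with h
    · rw [hδ1 i h]
    · push Not at h
      rw [S_zero (hloc i h).2, dt_zero_right]
  rw [hW']
  have e1 := hMove N V G P hT hSt hM A hAV k H x hTD hA (fun i hi => (hloc i hi).1) W δ
    (by
      intro i u hu hxu
      rw [hδ1 i ⟨u, hu, hxu⟩, hxu, dev_dl])
  have e2 := hLenF k H (fun i => dev P (x i)) δ hp hδ2
  have e3 : tlen (fun z w : ℂ => ‖z - w‖) H (fun i => dev P (x i)) = Ln V G P A := by
    rw [← hlen]
    exact tlen_congr H _ _ _ _ fun i j hij => (hst i j hij).symm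
  rw [e3] at e2
  have e4 := e1.and e2
  rw [Metric.eventually_nhds_iff] at e4
  obtain ⟨ε, hε, h⟩ := e4
  refine ⟨ε, hε, ?_⟩
  intro t ht
  have h5 := h (show dist t 0 < ε by rwa [Real.dist_eq, sub_zero])
  rw [← h5.2]
  exact h5.1

end Pool.Agent.Helper8.GP
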