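import Pool.Agent.Helper8.GP.Var

/-!
# Chapter VAR, module V15: the moving tree exists and stays straight
-/

set_option autoImplicit false

namespace Pool.Agent.Helper8.GP

open Pool.Agent.Helper18.GP Relation Classical Filter Topology

namespace V15

/-- the ordered adjacent pairs, halved, are the increasing adjacent pairs -/
theorem half {k : ℕ} (H : SimpleGraph (Fin k)) (f : Fin k → Fin k → ℝ)
    (hf : ∀ i j, f i j = f j i) :
    (∑ p ∈ (Finset.univ ×ˢ Finset.univ : Finset (Fin k × Fin k)).filter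
      (fun p => H.Adj p.1 p.2), f p.1 p.2) / 2 =
    ∑ e ∈ (Finset.univ : Finset (Fin k × Fin k)).filter (fun e => e.1 < e.2 ∧ H.Adj e.1 e.2),
      f e.1 e.2 := by
  set S := (Finset.univ : Finset (Fin k × Fin k)).filter (fun e => e.1 < e.2 ∧ H.Adj e.1 e.2)
    with hS
  set S' := (Finset.univ : Finset (Fin k × Fin k)).filter (fun e => e.2 < e.1 ∧ H.Adj e.1 e.2)
    with hS'
  have h1 : (Finset.univ ×ˢ Finset.univ : Finset (Fin k × Fin k)).filter
      (fun p => H.Adj p.1 p.2) = S ∪ S' := by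
    ext e
    simp only [hS, hS', Finset.mem_filter, Finset.mem_product, Finset.mem_univ, true_and,
      Finset.mem_union]
    constructor
    · intro h
      rcases lt_or_gt_of_ne h.ne with hlt | hgt
      · exact Or.inl ⟨hlt, h⟩
      · exact Or.inr ⟨hgt, h⟩
    · rintro (h | h) <;> exact h.2
  have h2 : Disjoint S S' := by
    rw [Finset.disjoint_left]
    intro e he he'
    rw [hS, Finset.mem_filter] at he
    rw [hS', Finset.mem_filter] at he'
    exact lt_asymm he.2.1 he'.2.1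
  have h3 : ∑ e ∈ S', f e.1 e.2 = ∑ e ∈ S, f e.1 e.2 := by
    apply Finset.sum_nbij' Prod.swap Prod.swap
    · intro e he
      rw [hS', Finset.mem_filter] at he
      rw [hS, Finset.mem_filter]
      exact ⟨Finset.mem_univ _, he.2.1, he.2.2.symm⟩
    · intro e he
      rw [hS, Finset.mem_filter] at he
      rw [hS', Finset.mem_filter]
      exact ⟨Finset.mem_univ _, he.2.1, he.2.2.symm⟩
    · intro e _; rfl
    · intro e _; rfl
    · intro e _; exact hf _ _
  rw [h1, Finset.sum_union h2, h3]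
  ring

theorem conn {k : ℕ} (H : SimpleGraph (Fin k)) {i j : Fin k} (h : H.Reachable i j) :
    EqvGen (fun p q => (p, q) ∈ (Finset.univ : Finset (Fin k × Fin k)).filter
      (fun e => e.1 < e.2 ∧ H.Adj e.1 e.2)) i j := by
  obtain ⟨w⟩ := h
  induction w with
  | nil => exact EqvGen.refl _
  | cons hadj _ ih =>
    refine EqvGen.trans _ _ _ ?_ ih
    rcases lt_or_gt_of_ne hadj.ne with hlt | hgt
    · exact EqvGen.rel _ _ (Finset.mem_filter.2 ⟨Finset.mem_univ _, hlt, hadj⟩)
    · exact EqvGen.symm _ _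
        (EqvGen.rel _ _ (Finset.mem_filter.2 ⟨Finset.mem_univ _, hgt, hadj.symm⟩))

/-- one moving node -/
theorem node (h8 : stLS) {N : ℕ} {V : Finset (Fin N)} {G : SimpleGraph (Fin N)}
    {P : Fin N → ℂ} (hSt : St V G P) {x : Fin N → ℝ} (hx : x ∈ Pts V G)
    (hI : (∀ u ∈ V, x ≠ dl u) → Inn V G x) (W : Fin N → ℂ) (δ : ℂ)
    (hδ : ∀ u ∈ V, x = dl u → δ = W u) :
    ∃ X : ℝ → (Fin N → ℝ), Tendsto X (𝓝 0) (𝓝 x) ∧ (∀ᶠ t in 𝓝 0, X t ∈ Pts V G) ∧
      (∀ᶠ t : ℝ in 𝓝 0, dev (fun v => P v + t * W v) (X t) = dev P x + t * δ) ∧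
      ∀ u ∈ V, dl u = x → ∀ᶠ t in 𝓝 0, X t = dl u := by
  by_cases hv : ∀ u ∈ V, x ≠ dl u
  · obtain ⟨X, hX, hX'⟩ := h8 N V G P hSt x hx (hI hv)
    have hcont : Continuous (fun t : ℝ =>
        (((fun v => P v + (t : ℂ) * W v), dev P x + (t : ℂ) * δ) : (Fin N → ℂ) × ℂ)) := by
      fun_prop
    have h0 : (((fun v => P v + ((0 : ℝ) : ℂ) * W v), dev P x + ((0 : ℝ) : ℂ) * δ) :
        (Fin N → ℂ) × ℂ) = (P, dev P x) := by
      simp
    have htend : Tendsto (fun t : ℝ =>
        (((fun v => P v + (t : ℂ) * W v), dev P x + (t : ℂ) * δ) : (Fin N → ℂ) × ℂ))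
        (𝓝 0) (𝓝 (P, dev P x)) := by
      rw [← h0]
      exact hcont.tendsto 0
    have hev := htend.eventually hX'
    refine ⟨fun t => X ((fun v => P v + (t : ℂ) * W v), dev P x + (t : ℂ) * δ),
      hX.comp htend, hev.mono fun t ht => ht.1, hev.mono fun t ht => ht.2, ?_⟩
    intro u hu hux
    exact absurd hux.symm (hv u hu)
  · push Not at hv
    obtain ⟨u, hu, hxu⟩ := hv
    refine ⟨fun _ => x, tendsto_const_nhds, Eventually.of_forall fun _ => hx,
      Eventually.of_forall fun t => ?_, ?_⟩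
    · rw [hxu, dev_dl, dev_dl, hδ u hu hxu]
    · intro u' _ hux
      exact Eventually.of_forall fun _ => hux.symm

end V15

theorem m_Move (hM : stMet) (h1 : stUp) (h8 : stLS) (h17 : stStrN) : stMove := by
  intro N V G P hT hSt _ A hA k H x hTD hAv hInn W δ hδ
  have hnode := fun i => V15.node h8 hSt (hTD.pts i) (hInn i) W (δ i) (fun u hu h => hδ i u hu h)
  choose X hX1 hX2 hX3 hX4 using hnode
  have hQ : Tendsto (fun t : ℝ => fun v => P v + (t : ℂ) * W v) (𝓝 0) (𝓝 P) := by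
    have hcont : Continuous (fun t : ℝ => fun v => P v + (t : ℂ) * W v) := by
      fun_prop
    have h0 : (fun v => P v + ((0 : ℝ) : ℂ) * W v) = P := by
      funext v
      simp
    have := hcont.tendsto 0
    rw [h0] at this
    exact this
  have e1 : ∀ᶠ t in 𝓝 (0 : ℝ), ∀ i, X i t ∈ Pts V G := Filter.eventually_all.2 hX2
  have e2 : ∀ᶠ t : ℝ in 𝓝 (0 : ℝ), ∀ i,
      dev (fun v => P v + t * W v) (X i t) = dev P (x i) + t * δ i := Filter.eventually_all.2 hX3
  have e3 : ∀ᶠ t in 𝓝 (0 : ℝ), ∀ i, ∀ u : Fin N, u ∈ V → dl u = x i → X i t = dl u := by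
    rw [Filter.eventually_all]
    intro i
    rw [Filter.eventually_all]
    intro u
    by_cases h : u ∈ V ∧ dl u = x i
    · exact (hX4 i u h.1 h.2).mono fun t ht _ _ => ht
    · exact Eventually.of_forall fun t hu hux => absurd ⟨hu, hux⟩ h
  have e4 : ∀ᶠ t : ℝ in 𝓝 (0 : ℝ), ∀ i, ∀ j, H.Adj i j →
      dK V G (fun v => P v + t * W v) (X i t) (X j t) =
        ‖dev (fun v => P v + t * W v) (X i t) - dev (fun v => P v + t * W v) (X j t)‖ := by
    rw [Filter.eventually_all]
    intro i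
    rw [Filter.eventually_all]
    intro j
    by_cases h : H.Adj i j
    · have := h17 N V G P hT hSt (x i) (hTD.pts i) (x j) (hTD.pts j) (hAv.edge i j h) (𝓝 0)
        (fun t : ℝ => fun v => P v + (t : ℂ) * W v) (X i) (X j) hQ (hX1 i) (hX1 j) (hX2 i)
        (hX2 j) (hX4 i) (hX4 j)
      exact this.mono fun t ht _ => ht
    · exact Eventually.of_forall fun t h' => absurd h' h
  filter_upwards [e1, e2, e3, e4] with t h1' h2' h3' h4'
  have hup := h1 N V G (fun v => P v + t * W v) (hM N V G _ hT) (Fin k)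
    ((Finset.univ : Finset (Fin k × Fin k)).filter (fun e => e.1 < e.2 ∧ H.Adj e.1 e.2))
    (fun i => X i t) h1' A ?_
  · refine hup.trans (le_of_eq ?_)
    unfold tlen
    rw [V15.half H (fun i j => ‖(dev P (x i) + t * δ i) - (dev P (x j) + t * δ j)‖)
      (fun i j => norm_sub_rev _ _)]
    apply Finset.sum_congr rfl
    intro e he
    rw [Finset.mem_filter] at he
    rw [h4' e.1 e.2 he.2.2, h2' e.1, h2' e.2]
  · intro a ha b hb
    obtain ⟨i, hi⟩ := hTD.act a ha
    obtain ⟨j, hj⟩ := hTD.act b hb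
    exact ⟨i, j, h3' i a (hA ha) hi.symm, h3' j b (hA hb) hj.symm,
      V15.conn H (hTD.tree.1.preconnected i j)⟩

end Pool.Agent.Helper8.GP
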