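import Pool.Agent.Helper18.GP.Cyc

/-!
# Chapter VAR: internal statements
-/

namespace Pool.Agent.Helper8.GP

open Pool.Agent.Helper18.GP Relation Classical Filter Topology

/-- the part on the side of `i` after the edge `ij` is removed -/
def Cmp {k : ℕ} (H : SimpleGraph (Fin k)) (i j l : Fin k) : Prop :=
  (H.deleteEdges {s(i, j)}).Reachable i l

/-- degree -/
noncomputable def dg {k : ℕ} (H : SimpleGraph (Fin k)) (i : Fin k) : ℕ :=
  (Finset.univ.filter fun j => H.Adj i j).card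

/-- shortest tree -/
structure TD {N : ℕ} (V : Finset (Fin N)) (G : SimpleGraph (Fin N)) (P : Fin N → ℂ)
    (A : Finset (Fin N)) (k : ℕ) (H : SimpleGraph (Fin k)) (x : Fin k → (Fin N → ℝ)) : Prop where
  tree : H.IsTree
  pts : ∀ i, x i ∈ Pts V G
  inj : Function.Injective x
  act : ∀ a ∈ A, ∃ i, x i = dl a
  deg : ∀ i, (∀ a ∈ A, x i ≠ dl a) → 3 ≤ dg H i
  len : tlen (dK V G P) H x = Ln V G P A

/-- V1: upper bound for the Steiner length by an indexed network.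
Proof. Take the list `E = S.toList.map fun e => (y e.1, y e.2)`; `nlen (dK V G P) E` is the right hand side
(`Finset.sum_toList` / `Finset.sum_map_toList`), nodes are in `Pts V G`, and `NConn E (dl '' B)`: for `a, b` in `B`
take `i, j`, map `EqvGen` by `y` (`EqvGen` induction: (p,q) in S gives (y p, y q) in E). `Ln` is `sInf` of a set bounded
below by 0 (`MetP.nonneg`, sums of nonnegative numbers), so `csInf_le`. -/
def stUp : Prop := ∀ (N : ℕ) (V : Finset (Fin N)) (G : SimpleGraph (Fin N)) (P : Fin N → ℂ),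
  MetP V G P → ∀ (ι : Type) (S : Finset (ι × ι)) (y : ι → (Fin N → ℝ)), (∀ i, y i ∈ Pts V G) →
  ∀ B : Finset (Fin N), (∀ a ∈ B, ∀ b ∈ B, ∃ i j, y i = dl a ∧ y j = dl b ∧
    EqvGen (fun p q => (p, q) ∈ S) i j) →
  Ln V G P B ≤ ∑ e ∈ S, dK V G P (y e.1) (y e.2)

/-- V2: removing an edge of a tree.
Proof. Second claim: a tree is acyclic, so `s(i,j)` is a bridge (`SimpleGraph.isAcyclic_iff_forall_edge_isBridge`,
`SimpleGraph.isBridge_iff`): `i`, `j` are not reachable from each other in `H.deleteEdges {s(i,j)}`; if `l` were reachable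
from both, contradiction (note `s(j,i) = s(i,j)`, `Sym2.eq_swap`). First claim: induction on a walk of `H` from `i` to `l`
(or `Relation.ReflTransGen` / `Reachable` induction): a step `l - m` of `H` is either the edge `ij` (then `m` is `i` or `j`, reachable from itself)
or an edge of the smaller graph. Third claim: `l - m` is an edge of the smaller graph. -/
def stCmp : Prop := ∀ (k : ℕ) (H : SimpleGraph (Fin k)), H.IsTree → ∀ i j, H.Adj i j →
  (∀ l, Cmp H i j l ∨ Cmp H j i l) ∧ (∀ l, Cmp H i j l → ¬ Cmp H j i l) ∧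
  (∀ l m, H.Adj l m → ¬ (l = i ∧ m = j) → ¬ (l = j ∧ m = i) → (Cmp H i j l ↔ Cmp H i j m))

/-- V3: both sides of an edge contain marked nodes (may use V2 as a hypothesis).
Proof. (L0) for neighbours `j ≠ j'` of `i`: `Cmp H j' i l → Cmp H i j l` (the part behind `j'` as seen from `i` is inside the part of `i` seen from `j`)
and `¬ Cmp H j' i i`. Indeed along a walk in `H.deleteEdges {s(j',i)}` from `j'` a step equal to the edge `ij` would reach `i`,
against V2 (bridge), so all steps are edges of `H.deleteEdges {s(i,j)}`, and so is the edge `i j'`.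
(L1) for distinct neighbours `j', j''` of `i`: no `l` with `Cmp H j' i l` and `Cmp H j'' i l` (by L0 `Cmp H j'' i l → Cmp H i j' l`, then V2).
(L2) claim: for all edges `ij` there is `l` with `Cmp H i j l ∧ Q l`: strong induction on the number of `l` with `Cmp H i j l`:
if `Q i` take `l = i`; otherwise `3 ≤ dg H i` gives a neighbour `j' ≠ j` and `Cmp H j' i` is a proper subset (misses `i`): induction hypothesis for the edge `j' i`.
(L3) the statement: if `m ≠ i` and `Q i`: `l = i`. If `m ≠ i`, not `Q i`: there are two neighbours `j' ≠ j''` of `i` different from `j`; L2 for both gives marked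
`l'`, `l''`, different by L1, both in `Cmp H i j` by L0; one of them is not `m`. If `m = i`, `2 ≤ dg H i`: a neighbour `j' ≠ j`, L2 for `j' i`: `l ≠ i`. -/
def stLeaf : Prop := ∀ (k : ℕ) (H : SimpleGraph (Fin k)), H.IsTree → ∀ Q : Fin k → Prop,
  (∀ i, ¬ Q i → 3 ≤ dg H i) → ∀ i j, H.Adj i j → ∀ m, (m ≠ i ∨ 2 ≤ dg H i) →
  ∃ l, Cmp H i j l ∧ Q l ∧ l ≠ m

/-- V4: cost of cutting the edge `ij` at the vertex `u` (uses V1 `stUp` and V2 `stCmp` as hypotheses).
Proof. `ι := Option (Fin k)`, `y (some l) = x l`, `y none = dl u`. `S₁` = pairs `(some l, some m)` with `l < m`, `H.Adj l m`, `Cmp H i j l`, `Cmp H i j m`,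
together with the pair `(some i, none)`; `S₂` the same for `Cmp H j i` and the pair `(none, some j)`. All `l` with `Cmp H i j l` are `EqvGen`-joined to `some i` by `S₁`
(induction on the walk in `H.deleteEdges {s(i,j)}`: each step is an edge of `H` inside `Cmp H i j`; if `m < l` use `EqvGen.symm`). So `stUp` applies to
`insert u (A.filter ..)` (`u` is `y none`). Sums: `tlen (dK V G P) H x = ∑ over pairs l < m, H.Adj l m, of dK (x l) (x m)` (symmetry of `dK`), and the pairs `l < m` adjacent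
are: those inside `Cmp H i j`, those inside `Cmp H j i` (disjoint by V2), and `{i,j}`. -/
def stCost : Prop := ∀ (N : ℕ) (V : Finset (Fin N)) (G : SimpleGraph (Fin N)) (P : Fin N → ℂ),
  MetP V G P → ∀ A ⊆ V, ∀ (k : ℕ) (H : SimpleGraph (Fin k)) (x : Fin k → (Fin N → ℝ)),
  TD V G P A k H x → ∀ i j, H.Adj i j → ∀ u ∈ V,
  Ln V G P (insert u (A.filter fun a => a ≠ u ∧ ∃ l, Cmp H i j l ∧ x l = dl a)) +
    Ln V G P (insert u (A.filter fun a => a ≠ u ∧ ∃ l, Cmp H j i l ∧ x l = dl a)) ≤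
    tlen (dK V G P) H x - dK V G P (x i) (x j) + dK V G P (x i) (dl u) + dK V G P (dl u) (x j)

/-- the tree avoids the vertices -/
structure Avo {N : ℕ} (V : Finset (Fin N)) (G : SimpleGraph (Fin N)) (P : Fin N → ℂ)
    (A : Finset (Fin N)) (k : ℕ) (H : SimpleGraph (Fin k)) (x : Fin k → (Fin N → ℝ)) : Prop where
  edge : ∀ i j, H.Adj i j → ∀ u ∈ V, dl u ≠ x i → dl u ≠ x j →
    dK V G P (x i) (x j) < dK V G P (x i) (dl u) + dK V G P (dl u) (x j)
  leaf : ∀ i, ∀ u ∈ V, x i = dl u → u ∈ A ∧ ∀ j l, H.Adj i j → H.Adj i l → j = l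

/-- V5 (uses V3 `stLeaf`, V4 `stCost`).
Proof. `Q l := ∃ a ∈ A, x l = dl a`; `TD.deg` gives `¬ Q i → 3 ≤ dg H i`. Given an edge `ij` and `u ∈ V` with `dK (x i) (dl u) + dK (dl u) (x j) ≤ dK (x i) (x j)`, V4 and `TD.len` give
`Ln (insert u B₁) + Ln (insert u B₂) ≤ Ln A`; `B₁`, `B₂` are disjoint (`TD.inj`, `dl_inj`, V2), their union is `A.erase u` (`TD.act`, V2 first claim), so by `NS` one of them is empty.
edge: `dl u ≠ x i, x j`. If `u` is no node choose `m := j` in V3 for `(i,j)` and `m := i` for `(j,i)`; if `x m = dl u` then `m ≠ i, j`; V3 gives `l` in `Cmp H i j`, `Q l`, `l ≠ m`,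
so `x l = dl a`, `a ∈ A`, `a ≠ u`: `B₁` nonempty; same for `B₂`. Contradiction.
leaf: `x i = dl u` and two different neighbours `j ≠ l` of `i`: then `2 ≤ dg H i`. `dK (x i) (dl u) = 0` (`MetP.self`), `dK (dl u) (x j) = dK (x i) (x j)`, so V4 applies to the edge `ij`; V3 for
`(i,j)` with `m = i` and for `(j,i)` with `m = i ≠ j`: both parts nonempty. Contradiction. Hence at most one neighbour; then `u ∈ A`, otherwise (`dl_inj`) `TD.deg` gives `3 ≤ dg H i`. -/
def stAvo : Prop := ∀ (N : ℕ) (V : Finset (Fin N)) (G : SimpleGraph (Fin N)) (P : Fin N → ℂ),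
  MetP V G P → ∀ A ⊆ V, ∀ (k : ℕ) (H : SimpleGraph (Fin k)) (x : Fin k → (Fin N → ℝ)),
  TD V G P A k H x → NS V G P A → Avo V G P A k H x

/-- V6: exchange at a node (uses V1 `stUp`).
Proof. `ι := Option (Fin k)`, `y' (some m) = x m`, `y' none = y`; `S` = pairs `(some a, some b)` with `a < b`, `H.Adj a b`, `{a,b} ≠ {i,j}, {i,l}`, together with `(some i, none)`, `(none, some j)`,
`(none, some l)`. Every edge of `H` is `EqvGen`-replaced (the edges `ij`, `il` by two pairs through `none`), so all nodes are joined (`TD.tree` connected). `stUp` with `B = A` gives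
`Ln A ≤ tlen - dK (x i) (x j) - dK (x i) (x l) + dK (x i) y + dK y (x j) + dK y (x l)`, and `tlen = Ln A`. -/
def stExch : Prop := ∀ (N : ℕ) (V : Finset (Fin N)) (G : SimpleGraph (Fin N)) (P : Fin N → ℂ),
  MetP V G P → ∀ A ⊆ V, ∀ (k : ℕ) (H : SimpleGraph (Fin k)) (x : Fin k → (Fin N → ℝ)),
  TD V G P A k H x → ∀ i j l, H.Adj i j → H.Adj i l → j ≠ l → ∀ y ∈ Pts V G,
  dK V G P (x i) (x j) + dK V G P (x i) (x l) ≤
    dK V G P (x i) y + dK V G P y (x j) + dK V G P y (x l)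

/-- inner points: inside a triangle or inside an edge with two triangles -/
def Inn {N : ℕ} (V : Finset (Fin N)) (G : SimpleGraph (Fin N)) (x : Fin N → ℝ) : Prop :=
  (∃ a ∈ V, ∃ b ∈ V, ∃ c ∈ V, Ccw a b c ∧ G.Adj a b ∧ G.Adj b c ∧ G.Adj a c ∧
    ∀ v, x v ≠ 0 ↔ (v = a ∨ v = b ∨ v = c)) ∨
  (∃ a ∈ V, ∃ b ∈ V, ∃ c ∈ V, ∃ d ∈ V, Ccw a c b ∧ Ccw b d a ∧ G.Adj a b ∧ G.Adj a c ∧ G.Adj c b ∧
    G.Adj b d ∧ G.Adj d a ∧ ∀ v, x v ≠ 0 ↔ (v = a ∨ v = b))

/-- points inside a side -/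
def Bnd {N : ℕ} (V : Finset (Fin N)) (G : SimpleGraph (Fin N)) (x : Fin N → ℝ) : Prop :=
  ∃ a ∈ V, ∃ b ∈ V, ∃ c ∈ V, Ccw a c b ∧ G.Adj a b ∧ G.Adj a c ∧ G.Adj c b ∧
    (∀ v, x v ≠ 0 ↔ (v = a ∨ v = b)) ∧
    ∀ z ∈ Pts V G, Sh G x z → ∀ v, z v ≠ 0 → v = a ∨ v = b ∨ v = c

/-- V7: dichotomy (uses `stApex` of Api.lean as a hypothesis).
Proof. Let `s` be the support of `x`: a clique in `V`. It is not a single vertex (then `x = dl u`, as the sum is 1). It has at most 3 elements: four distinct elements `a, b, c, d` in cyclic order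
(sort by `cyc a`: `cyc a b < cyc a c < cyc a d`) give `Crs a c b d` with `G.Adj a c`, `G.Adj b d`, against `IsTri.nc`. Three elements: `Ccw a b c` or `Ccw a c b`: first case of `Inn`.
Two elements `a, b`: if some `v ∈ V` has `Ccw a v b` and some `w ∈ V` has `Ccw b w a`, `stApex` twice: second case of `Inn`. If no `w` has `Ccw b w a` then (3 ≤ V.card) some `v` has `Ccw a v b`; `c` = the
unique apex. `Bnd` with `(a,b,c)`: `z ∈ Pts V G`, `Sh G x z`, `z v ≠ 0`, `v ≠ a, b`: `v ∈ V`, `G.Adj a v`, `G.Adj v b`, `Ccw a v b` (not `Ccw b v a`), so `v = c` by uniqueness. If no `v` has `Ccw a v b`: swap `a` and `b`. -/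
def stDich : Prop := ∀ (N : ℕ) (V : Finset (Fin N)) (G : SimpleGraph (Fin N)), IsTri V G →
  3 ≤ V.card → ∀ x ∈ Pts V G, (∀ u ∈ V, x ≠ dl u) → Inn V G x ∨ Bnd V G x

/-- V8: local surjectivity at inner points, jointly in the positions.
Proof. For `a b c` with `D = crs (P' b - P' a) (P' c - P' a) ≠ 0` put `α = crs (P' b - q) (P' c - q) / D`, `β = crs (P' c - q) (P' a - q) / D`, `γ = crs (P' a - q) (P' b - q) / D`, so that
`α + β + γ = 1`, `α P'_a + β P'_b + γ P'_c = q` (real and imaginary parts, `field_simp; ring`), and these are the only such numbers. `B a b c (P',q) := fun v => α * dl a v + β * dl b v + γ * dl c v`.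
It is continuous at `(P, dev P x)` (D > 0 by `St`), with value `x` there if `x` is supported in `{a,b,c}` (uniqueness). First case of `Inn`: `X := B a b c`: `α, β, γ > 0` at the base point, so also nearby; then `X p ∈ Pts`.
Second case (edge `ab`, `Ccw a c b`, `Ccw b d a`): triangles `a c b` and `b d a`. `X p := if 0 ≤ crs (p.1 a - p.2) (p.1 b - p.2) then B on {b, d, a} else B on {a, c, b}` (choose the sign so that the third coordinate is
nonnegative: the coordinate of `d` in the triangle `b d a` is `crs (P' a - q) (P' b - q) / crs (P' d - P' b) (P' a - P' b)`, the coordinate of `c` in `a c b` is `crs (P' b - q) (P' a - q) / crs (P' c - P' a) (P' b - P' a)`,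
both denominators positive). Both branches tend to `x`: `Filter.Tendsto.if'`. Support in a clique of `V`: the adjacencies are in `Inn`. -/
def stLS : Prop := ∀ (N : ℕ) (V : Finset (Fin N)) (G : SimpleGraph (Fin N)) (P : Fin N → ℂ),
  St V G P → ∀ x ∈ Pts V G, Inn V G x → ∃ X : (Fin N → ℂ) × ℂ → (Fin N → ℝ),
  Tendsto X (𝓝 (P, dev P x)) (𝓝 x) ∧
  ∀ᶠ p in 𝓝 (P, dev P x), X p ∈ Pts V G ∧ dev p.1 (X p) = p.2

/-- V9: a straight geodesic starts inside a common face.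
Proof. Induction on `Ch V G P x y c` with `c = ‖dev x - dev y‖` (take `MetP.att`). `nil`: `x = y`. `cons x x₁ y c'`: `x₁ ∈ Pts` (first point of a chain), `‖dev x₁ - dev y‖ ≤ c'` (induction / `MetP.low`).
If `dev x₁ = dev x`: `dK x x₁ = 0` by `MetP.sh`, so `x₁ = x`, and `c' = ‖dev x - dev y‖`: induction hypothesis. Otherwise `‖dev x - dev x₁‖ + ‖dev x₁ - dev y‖ = ‖dev x - dev y‖`, so with `a = dev x₁ - dev x ≠ 0`,
`b = dev y - dev x₁`: `‖a + b‖ = ‖a‖ + ‖b‖`, `sameRay_iff_norm_add`, `a = r (a + b)`, `r = ‖a‖ / ‖a + b‖ > 0`. Take `z = x₁`. -/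
def stDir : Prop := ∀ (N : ℕ) (V : Finset (Fin N)) (G : SimpleGraph (Fin N)) (P : Fin N → ℂ),
  MetP V G P → (∀ x ∈ Pts V G, ∀ y ∈ Pts V G, dK V G P x y = 0 → x = y) →
  ∀ x ∈ Pts V G, ∀ y ∈ Pts V G, dK V G P x y = ‖dev P x - dev P y‖ → x ≠ y →
  ∃ z ∈ Pts V G, Sh G x z ∧ ∃ r : ℝ, 0 < r ∧ dev P z - dev P x = r * (dev P y - dev P x)

/-- unit vector -/
noncomputable def un (z : ℂ) : ℂ := z / (‖z‖ : ℂ)

/-- V10: the angle inequality.
Proof. Let `g = e + f`, `n = ‖g‖`, `c = dt e f`, so `n ^ 2 = 2 + 2 c`, `dt e g = dt f g = 1 + c = n ^ 2 / 2`. `‖l e - s g‖ ^ 2 = l ^ 2 - 2 l s (1 + c) + s ^ 2 n ^ 2`, so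
`‖l e - s g‖ ≤ l - s (1 + c) + s ^ 2 n ^ 2 / (2 l)` (square root: sqrt (l^2 + h) ≤ l + h / (2 l)), same for `m`. Adding: `0 ≤ s n - 2 s (1 + c) + s ^ 2 n ^ 2 (1/(2 l) + 1/(2 m))`; divide by `s`, let `s → 0+`:
`n ^ 2 ≤ n`, so `n ≤ 1` (or n = 0), `2 + 2 c ≤ 1`. -/
def stAng : Prop := ∀ (e f : ℂ) (l m : ℝ), ‖e‖ = 1 → ‖f‖ = 1 → 0 < l → 0 < m →
  (∀ᶠ s : ℝ in 𝓝[>] 0, l + m ≤ ‖(s : ℂ) * (e + f)‖ + ‖(l : ℂ) * e - s * (e + f)‖ +
    ‖(m : ℂ) * f - s * (e + f)‖) → dt e f ≤ -1 / 2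

/-- V11: three unit vectors.
Proof. `‖e + f + g‖ ^ 2 = 3 + 2 (dt e f + dt e g + dt f g) ≤ 0`. Then `dt e (e + f + g) = 0` etc. -/
def stThree : Prop := ∀ e f g : ℂ, ‖e‖ = 1 → ‖f‖ = 1 → ‖g‖ = 1 → dt e f ≤ -1 / 2 →
  dt e g ≤ -1 / 2 → dt f g ≤ -1 / 2 → e + f + g = 0 ∧ dt e f = -1 / 2 ∧ dt e g = -1 / 2 ∧
  dt f g = -1 / 2

/-- position of a node with three neighbours -/
def Tri3 {k : ℕ} (H : SimpleGraph (Fin k)) (p : Fin k → ℂ) (i : Fin k) : Prop :=
  ∃ j₁ j₂ j₃, j₁ ≠ j₂ ∧ j₁ ≠ j₃ ∧ j₂ ≠ j₃ ∧ (∀ l, H.Adj i l ↔ (l = j₁ ∨ l = j₂ ∨ l = j₃)) ∧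
    un (p i - p j₁) + un (p i - p j₂) + un (p i - p j₃) = 0

/-- V16: near points share a face. Proof: `y v ≠ 0` for all `v` with `x v ≠ 0` (finitely many `v`, continuity of `y ↦ y v`), so for near `y ∈ Pts` the set in `Sh` is the support of `y`. -/
def stShN : Prop := ∀ (N : ℕ) (V : Finset (Fin N)) (G : SimpleGraph (Fin N)), ∀ x ∈ Pts V G,
  ∀ᶠ y in 𝓝[Pts V G] x, Sh G x y

/-- V17: straight geodesics stay straight (uses `stStraight`, `stCont`).
Proof. By `stCont` (`ContinuousOn.continuousWithinAt`, `tendsto_nhdsWithin_iff`): `dK V G (Q t) (X t) (Z t) → dK V G P x z`, and the same for the pairs `(X t, dl u)`, `(dl u, Z t)`, `u ∈ V` (`dl_mem`).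
`St V G (Q t)` eventually (finitely many strict inequalities, continuity of `crs`). For each `u ∈ V`: if `dl u = x` or `dl u = z` then eventually `dl u = X t` or `dl u = Z t`; otherwise eventually
`dK (Q t) (X t) (Z t) < dK (Q t) (X t) (dl u) + dK (Q t) (dl u) (Z t)`. Intersect over `u ∈ V` and apply `stStraight` for `Q t`. -/
def stStrN : Prop := ∀ (N : ℕ) (V : Finset (Fin N)) (G : SimpleGraph (Fin N)) (P : Fin N → ℂ),
  IsTri V G → St V G P → ∀ x ∈ Pts V G, ∀ z ∈ Pts V G,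
  (∀ u ∈ V, dl u ≠ x → dl u ≠ z → dK V G P x z < dK V G P x (dl u) + dK V G P (dl u) z) →
  ∀ (l : Filter ℝ) (Q : ℝ → Fin N → ℂ) (X Z : ℝ → (Fin N → ℝ)), Tendsto Q l (𝓝 P) →
  Tendsto X l (𝓝 x) → Tendsto Z l (𝓝 z) → (∀ᶠ t in l, X t ∈ Pts V G) →
  (∀ᶠ t in l, Z t ∈ Pts V G) → (∀ u ∈ V, dl u = x → ∀ᶠ t in l, X t = dl u) →
  (∀ u ∈ V, dl u = z → ∀ᶠ t in l, Z t = dl u) →
  ∀ᶠ t in l, dK V G (Q t) (X t) (Z t) = ‖dev (Q t) (X t) - dev (Q t) (Z t)‖

/-- V18: nearby points in the direction of the sum of two straight geodesics (uses V8 `stLS`, V9 `stDir`).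
Proof. `Inn`: `Y s := X (P, dev P x + s (e + f))` with `X` of V8, `e = un (dev y - dev x)`, `f = un (dev z - dev x)`. `Bnd`: V9 gives `y'`, `z'` with `Sh G x y'`, `Sh G x z'`,
`dev y' - dev x = r (dev y - dev x)`, `dev z' - dev x = r' (dev z - dev x)`, `r, r' > 0` (positions of `x`, `y` differ as `dK x y = 0` would give `x = y`); so `dev y' - dev x = R e`, `dev z' - dev x = R' f`,
`R, R' > 0`. `Y s := (1 - s / R - s / R') x + (s / R) y' + (s / R') z'`: supported in `{a,b,c}` (last clause of `Bnd`), nonnegative for small `s > 0`, sum 1. -/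
def stNear : Prop := ∀ (N : ℕ) (V : Finset (Fin N)) (G : SimpleGraph (Fin N)) (P : Fin N → ℂ),
  St V G P → MetP V G P → (∀ x ∈ Pts V G, ∀ y ∈ Pts V G, dK V G P x y = 0 → x = y) →
  ∀ x ∈ Pts V G, (Inn V G x ∨ Bnd V G x) → ∀ y ∈ Pts V G, ∀ z ∈ Pts V G, x ≠ y → x ≠ z →
  dK V G P x y = ‖dev P x - dev P y‖ → dK V G P x z = ‖dev P x - dev P z‖ →
  ∃ Y : ℝ → (Fin N → ℝ), Tendsto Y (𝓝[>] 0) (𝓝 x) ∧ ∀ᶠ s : ℝ in 𝓝[>] 0, Y s ∈ Pts V G ∧
    dev P (Y s) = dev P x + s * (un (dev P y - dev P x) + un (dev P z - dev P x))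

/-- V19: the angle at a node outside the vertices (uses `stExch`, `stNear`, `stShN`, `stStrN`, `stAng`, `stStraight`).
Proof. `e = un (p_j - p_i)`, `f = un (p_l - p_i)`, `p = dev P ∘ x`. `dK (x i) (x j) = ‖p_i - p_j‖` by `stStraight` and `Avo.edge`, positive as `x i ≠ x j` (`TD.inj`, adjacency). `Y` from `stNear`. For small `s > 0`: `stExch` with `y = Y s`;
`dK (x i) (Y s) = ‖p_i - dev (Y s)‖ = ‖s (e + f)‖` (`stShN`, `MetP.sh`); `dK (Y s) (x j) = ‖dev (Y s) - p_j‖` by `stStrN` with `l = 𝓝[>] 0`, `Q = P`, `X = Y`, `Z = x j` constant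
(`x i` is no vertex, so the first vertex condition is void), and `dev (Y s) - p_j = s (e + f) - l e`, `l = ‖p_j - p_i‖`. `stAng`. -/
def stPair : Prop := ∀ (N : ℕ) (V : Finset (Fin N)) (G : SimpleGraph (Fin N)) (P : Fin N → ℂ),
  IsTri V G → St V G P → MetP V G P →
  (∀ x ∈ Pts V G, ∀ y ∈ Pts V G, dK V G P x y = 0 → x = y) → ∀ A ⊆ V,
  ∀ (k : ℕ) (H : SimpleGraph (Fin k)) (x : Fin k → (Fin N → ℝ)),
  TD V G P A k H x → Avo V G P A k H x → ∀ i, (∀ u ∈ V, x i ≠ dl u) →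
  (Inn V G (x i) ∨ Bnd V G (x i)) → ∀ j l, H.Adj i j → H.Adj i l → j ≠ l →
  dt (un (dev P (x j) - dev P (x i))) (un (dev P (x l) - dev P (x i))) ≤ -1 / 2

/-- V12: local structure at the nodes outside the vertices (uses `stDich`, `stDir`, `stPair`, `stThree`, `stStraight`).
Proof. `TD.deg` (no `a ∈ A` has `x i = dl a`) gives three distinct neighbours; unit vectors `e₁ e₂ e₃` (`e_j = un (p_j - p_i)`, norm 1 since `p_j ≠ p_i`) with pairwise `dt ≤ -1/2` (`stPair`), so `e₁ + e₂ + e₃ = 0` (`stThree`).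
A fourth neighbour `j`: `e₁ + e₂ + e_j = 0` too, so `e_j = e₃`, `dt e_j e₃ = 1`, contradiction to `stPair`. `un (p i - p j) = - un (p j - p i)`.
`Bnd` is impossible: `z_j` from `stDir` for the three neighbours, supported in `{a,b,c}`; with `n = P b - P a`: `crs n (dev z_j - dev x_i) = z_j c * crs n (P c - P a)` (as `∑ z_j = ∑ x_i = 1`, both supported in `{a,b,c}`, `x_i c = 0`), and
`crs n (P c - P a) < 0` (`St` for `Ccw a c b`), so all `crs n e_j ≤ 0`, their sum is 0, so all are 0, so all `e_j` are parallel to `n ≠ 0`, so `crs e₁ e₂ = 0` and `dt e₁ e₂ = ± 1`, but it is `-1/2`. -/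
def stLocal : Prop := ∀ (N : ℕ) (V : Finset (Fin N)) (G : SimpleGraph (Fin N)) (P : Fin N → ℂ),
  IsTri V G → St V G P → 3 ≤ V.card → MetP V G P →
  (∀ x ∈ Pts V G, ∀ y ∈ Pts V G, dK V G P x y = 0 → x = y) → ∀ A ⊆ V,
  ∀ (k : ℕ) (H : SimpleGraph (Fin k)) (x : Fin k → (Fin N → ℝ)),
  TD V G P A k H x → Avo V G P A k H x → ∀ i, (∀ u ∈ V, x i ≠ dl u) →
  Inn V G (x i) ∧ Tri3 H (fun j => dev P (x j)) i

/-- V13: velocities. Pure linear algebra.
Proof. Linear map `T : (Fin k → ℂ) → (Fin k × Fin k → ℝ) × (Fin k → ℂ)` over ℝ: `T δ = (fun ij => if H.Adj i j then crs (δ i - δ j) (p i - p j) else 0, fun i => if Q i then δ i else 0)`, target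
`b = (0, fun i => if Q i then W i else 0)`. If `b` is in the range, done. Otherwise there is a linear functional `φ` with `φ ∘ T = 0`, `φ b ≠ 0` (`Submodule.exists_le_ker_of_notMem` / `Submodule.exists_dual_map_eq_bot_of_notMem`).
`φ (y, z) = ∑ σ_ij y_ij + ∑ τ_i (z_i)`, `s_ij = σ_ij + σ_ji` (symmetric), `ℓ_ij = ‖p i - p j‖`, `e_ij = un (p i - p j)`. Test with `δ = Pi.single i c`: for `¬ Q i`: `∑_{j ~ i} s_ij ℓ_ij crs c e_ij = 0` for all `c`, so `∑_{j ~ i} s_ij ℓ_ij e_ij = 0`;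
with `Tri3`: three vectors of norm 1 with sum 0, `α e₁ + β e₂ + γ e₃ = 0` gives `α = β = γ` (e₃ = - e₁ - e₂, e₁ and e₂ independent: otherwise e₁ = ± e₂ and then |e₃| is 0 or 2). So `g (i,j) = s_ij ℓ_ij` (symmetric) is the same for all edges at a node
with `¬ Q i`; at `Q i` there is at most one edge; `H` preconnected: `g = κ` on all edges (fix an edge `i₀ j₀`; induction along walks from `i₀`: all edges at the current node have `g = κ`). For `Q i`: `κ crs c (∑_{j ~ i} e_ij) + τ_i c = 0` for all `c`.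
So `φ b = ∑_{Q i} τ_i (W i) = - κ ∑_{Q i} crs (W i) (∑_{j ~ i} e_ij) = 0`, contradiction. (If `H` has no edges: `δ i = W i` on `Q`.) -/
def stVel : Prop := ∀ (k : ℕ) (H : SimpleGraph (Fin k)) (p : Fin k → ℂ) (Q : Fin k → Prop),
  H.Preconnected → (∀ i j, H.Adj i j → p i ≠ p j) →
  (∀ i, Q i → ∀ j l, H.Adj i j → H.Adj i l → j = l) → (∀ i, ¬ Q i → Tri3 H p i) →
  ∀ W : Fin k → ℂ, (∑ i, if Q i then
    crs (W i) (∑ j, if H.Adj i j then un (p i - p j) else 0) else 0) = 0 →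
  ∃ δ : Fin k → ℂ, (∀ i, Q i → δ i = W i) ∧ ∀ i j, H.Adj i j → crs (δ i - δ j) (p i - p j) = 0

/-- V14: length of the moving tree.
Proof. For an edge `ij` with `e = p i - p j ≠ 0`, `w = δ i - δ j`, `crs w e = 0`: `w = (dt w e / ‖e‖ ^ 2) e`, so for small `|t|`: `‖e + t w‖ = ‖e‖ (1 + t dt w e / ‖e‖ ^ 2) = ‖e‖ + t dt w (un e)`. Finitely many edges. Sum over ordered adjacent pairs:
`∑_{(i,j)} dt (δ i - δ j) (un (p i - p j)) = 2 ∑_{(i,j)} dt (δ i) (un (p i - p j))` (swap `i`, `j`; `un (-z) = - un z`), and `tlen` has the factor `1/2`. -/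
def stLenF : Prop := ∀ (k : ℕ) (H : SimpleGraph (Fin k)) (p δ : Fin k → ℂ),
  (∀ i j, H.Adj i j → p i ≠ p j) → (∀ i j, H.Adj i j → crs (δ i - δ j) (p i - p j) = 0) →
  ∀ᶠ t : ℝ in 𝓝 0, tlen (fun z w : ℂ => ‖z - w‖) H (fun i => p i + t * δ i) =
    tlen (fun z w : ℂ => ‖z - w‖) H p +
      t * ∑ i, dt (δ i) (∑ j, if H.Adj i j then un (p i - p j) else 0)

/-- V15: the moving tree exists and stays straight (uses `stMet`, `stUp`, `stLS`, `stStrN`).
Proof. `P_t = P + t W`, `p_i = dev P (x i)`. `X_i t := x i` if `x i = dl u` for some `u ∈ V`, else `X_i t := X (P_t, p_i + t δ_i)` with `X` of V8 for `x i`. Then `X_i t → x i` as `t → 0`, eventually `X_i t ∈ Pts V G` and `dev P_t (X_i t) = p_i + t δ_i`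
(for `x i = dl u`: `dev P_t (dl u) = P u + t W u`, `dev_dl`). For an edge `ij`, `stStrN` (with `Avo.edge`) gives eventually `dK V G P_t (X_i t) (X_j t) = ‖(p_i + t δ_i) - (p_j + t δ_j)‖`. `stUp` for `MetP V G P_t` (stMet) with `ι = Fin k`,
`S` = pairs `i < j`, `H.Adj i j`, `y i = X_i t` (if `X_i t ∈ Pts` for all `i`), `B = A`: `Ln V G P_t A ≤ ∑_{i<j, adj} dK = tlen (norm) ..` (`H` connected, `TD.act`; for `a ∈ A` the node `i` with `x i = dl a` has `X_i t = dl a`). -/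
def stMove : Prop := ∀ (N : ℕ) (V : Finset (Fin N)) (G : SimpleGraph (Fin N)) (P : Fin N → ℂ),
  IsTri V G → St V G P → MetP V G P → ∀ A ⊆ V,
  ∀ (k : ℕ) (H : SimpleGraph (Fin k)) (x : Fin k → (Fin N → ℝ)),
  TD V G P A k H x → Avo V G P A k H x → (∀ i, (∀ u ∈ V, x i ≠ dl u) → Inn V G (x i)) →
  ∀ (W : Fin N → ℂ) (δ : Fin k → ℂ), (∀ i, ∀ u ∈ V, x i = dl u → δ i = W u) →
  ∀ᶠ t : ℝ in 𝓝 0, Ln V G (fun v => P v + t * W v) A ≤
    tlen (fun z w : ℂ => ‖z - w‖) H (fun i => dev P (x i) + t * δ i)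

end Pool.Agent.Helper8.GP
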